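import Pool.Agent.H568R2.Rand.Defs

open FirstOrder Cardinal MeasureTheory Filter Topology
open scoped unitInterval FirstOrder

noncomputable section

namespace Pool.Agent.H568R2.Rand

/-- fair coin -/
def coin : Measure Bool := (2⁻¹ : ENNReal) • (Measure.dirac true + Measure.dirac false)

instance : IsProbabilityMeasure coin := by
  constructor
  simp only [coin, Measure.smul_apply, Measure.add_apply, Measure.dirac_apply_of_mem,
    Set.mem_univ, smul_eq_mul]
  rw [one_add_one_eq_two, ENNReal.inv_mul_cancel (by norm_num) (by norm_num)]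

lemma coin_singleton (b : Bool) : coin {b} = 2⁻¹ := by
  cases b <;> simp [coin]

/-- product of fair coins indexed by `J` -/
def coins (J : Type) : Measure (J → Bool) := Measure.infinitePi fun _ => coin

instance (J : Type) : IsProbabilityMeasure (coins J) := by
  unfold coins; infer_instance

lemma coins_cyl {J : Type} (s : Finset J) (τ : J → Bool) :
    coins J {ω | ∀ i ∈ s, ω i = τ i} = (2⁻¹ : ENNReal) ^ s.card := by
  have h : {ω : J → Bool | ∀ i ∈ s, ω i = τ i} = Set.pi s fun i => {τ i} := by
    ext ω; simp [Set.mem_pi]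
  rw [h, coins, Measure.infinitePi_pi _ (fun i _ => measurableSet_singleton _)]
  simp [coin_singleton]

lemma coins_ne {J : Type} {i j : J} (hij : i ≠ j) :
    (coins J).real {ω | ω i ≠ ω j} = 1 / 2 := by
  classical
  have h1 : ∀ b c : Bool, coins J {ω | ω i = b ∧ ω j = c} = (2⁻¹ : ENNReal) ^ 2 := by
    intro b c
    have := coins_cyl ({i, j} : Finset J) (fun k => if k = i then b else c)
    rw [Finset.card_pair hij] at this
    rw [← this]
    congr 1
    ext ω
    simp [hij.symm]
  have hm : ∀ b c : Bool, MeasurableSet {ω : J → Bool | ω i = b ∧ ω j = c} := by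
    intro b c
    have e1 : MeasurableSet ((fun ω : J → Bool => ω i) ⁻¹' {b}) :=
      (measurable_pi_apply i) (measurableSet_singleton b)
    have e2 : MeasurableSet ((fun ω : J → Bool => ω j) ⁻¹' {c}) :=
      (measurable_pi_apply j) (measurableSet_singleton c)
    exact e1.inter e2
  have h2 : {ω : J → Bool | ω i ≠ ω j} =
      {ω | ω i = true ∧ ω j = false} ∪ {ω | ω i = false ∧ ω j = true} := by
    ext ω
    simp only [Set.mem_ofPred_eq, Set.mem_union]
    cases ω i <;> cases ω j <;> simp
  have h3 : coins J {ω | ω i ≠ ω j} = 2⁻¹ := by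
    rw [h2, measure_union _ (hm _ _), h1, h1]
    · rw [← two_mul, pow_two, ← mul_assoc, ENNReal.mul_inv_cancel (by norm_num) (by norm_num),
        one_mul]
    · rw [Set.disjoint_left]
      rintro ω ⟨h1, _⟩ ⟨h3, _⟩
      simp [h1] at h3
  rw [measureReal_def, h3]
  simp

lemma coins_atomless {J : Type} [Infinite J] : Atomless (coins J) := by
  classical
  intro E hE hE0
  obtain ⟨k, hk⟩ : ∃ k : ℕ, (2⁻¹ : ENNReal) ^ k < coins J E :=
    ENNReal.exists_inv_two_pow_lt hE0
  obtain ⟨s, hs⟩ := Infinite.exists_subset_card_eq J k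
  have hunion : E = ⋃ τ : (s → Bool), E ∩ {ω | ∀ i : s, ω i = τ i} := by
    ext ω
    simp only [Set.mem_iUnion, Set.mem_inter_iff, Set.mem_ofPred_eq]
    constructor
    · intro h
      exact ⟨fun i => ω i, h, fun _ => rfl⟩
    · rintro ⟨τ, h, _⟩
      exact h
  have hex : ∃ τ : (s → Bool), coins J (E ∩ {ω | ∀ i : s, ω i = τ i}) ≠ 0 := by
    by_contra hc
    push Not at hc
    apply hE0
    rw [hunion]
    exact measure_iUnion_null hc
  obtain ⟨τ, hτ⟩ := hex
  have hcyl : coins J {ω | ∀ i : s, ω i = τ i} = (2⁻¹ : ENNReal) ^ k := by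
    have := coins_cyl s (fun i => if h : i ∈ s then τ ⟨i, h⟩ else true)
    rw [hs] at this
    rw [← this]
    congr 1
    ext ω
    simp only [Set.mem_ofPred_eq, Subtype.forall]
    constructor
    · intro h i hi
      rw [h i hi]; simp [hi]
    · intro h i hi
      rw [h i hi]; simp [hi]
  have hm : MeasurableSet {ω : J → Bool | ∀ i : s, ω i = τ i} := by
    have : {ω : J → Bool | ∀ i : s, ω i = τ i} = ⋂ i : s, (fun ω => ω i) ⁻¹' {τ i} := by
      ext ω; simp
    rw [this]
    exact MeasurableSet.iInter fun i => (measurable_pi_apply (i : J)) (measurableSet_singleton _)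
  refine ⟨E ∩ {ω | ∀ i : s, ω i = τ i}, Set.inter_subset_left, hE.inter hm, hτ, ?_⟩
  exact ((measure_mono Set.inter_subset_right).trans hcyl.le).trans_lt hk

/-- The coordinate random variable. -/
def coord {J : Type} (i : J) : RV (coins J) Bool where
  toFun ω := ω i
  meas S := (measurable_pi_apply i) (MeasurableSet.of_discrete)
  ctble := Set.to_countable _

end Pool.Agent.H568R2.Rand
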