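import Pool.Agent.H568R2.Rand.Quot

open FirstOrder Cardinal MeasureTheory Filter Topology
open scoped unitInterval FirstOrder

noncomputable section

namespace Pool.Agent.H568R2.Rand

variable {Ω : Type} [MeasurableSpace Ω] {μ : Measure Ω} [IsProbabilityMeasure μ]

open Classical in
instance completeRV (X : Type) : CompleteSpace (RV μ X) := by
  refine Metric.complete_of_convergent_controlled_sequences (fun n => (1 / 2 : ℝ) ^ n)
    (fun n => by positivity) ?_
  intro u hu
  -- the sets where the sequence is constant from `N` on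
  set A : ℕ → Set Ω := fun n => {ω | (u n).toFun ω ≠ (u (n + 1)).toFun ω} with hA
  have hAm : ∀ n, MeasurableSet (A n) := fun n => RV.measurableSet_ne _ _
  set C : ℕ → Set Ω := fun N => ⋃ k, A (N + k) with hC
  have hCm : ∀ N, MeasurableSet (C N) := fun N => MeasurableSet.iUnion fun k => hAm _
  set p : Ω → ℕ → Prop := fun ω N => ω ∉ C N ∨ ∀ k, ω ∈ C k with hp
  have hex : ∀ ω, ∃ N, p ω N := by
    intro ω
    by_cases h : ∀ k, ω ∈ C k
    · exact ⟨0, Or.inr h⟩
    · push Not at h
      obtain ⟨k, hk⟩ := h
      exact ⟨k, Or.inl hk⟩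
  have hpm : ∀ k, MeasurableSet {ω | p ω k} := by
    intro k
    have : {ω | p ω k} = (C k)ᶜ ∪ ⋂ j, C j := by
      ext ω; simp [hp]
    rw [this]
    exact (hCm k).compl.union (MeasurableSet.iInter hCm)
  have hNm : Measurable fun ω => Nat.find (hex ω) := measurable_find hex hpm
  let f : RV μ X :=
    { toFun := fun ω => (u (Nat.find (hex ω))).toFun ω
      meas := by
        intro S
        have : (fun ω => (u (Nat.find (hex ω))).toFun ω) ⁻¹' S =
            ⋃ n, ((fun ω => Nat.find (hex ω)) ⁻¹' {n}) ∩ ((u n).toFun ⁻¹' S) := by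
          ext ω
          simp
        rw [this]
        exact MeasurableSet.iUnion fun n =>
          (hNm (measurableSet_singleton n)).inter ((u n).meas S)
      ctble := by
        refine (Set.countable_iUnion fun n => (u n).ctble).mono ?_
        rintro _ ⟨ω, rfl⟩
        exact Set.mem_iUnion.mpr ⟨_, ⟨ω, rfl⟩⟩ }
  refine ⟨f, ?_⟩
  rw [tendsto_iff_dist_tendsto_zero]
  have key : ∀ N, dist (u N) f ≤ 2 * (1 / 2 : ℝ) ^ N := by
    intro N
    have h1 : {ω | (u N).toFun ω ≠ f.toFun ω} ⊆ C N := by
      intro ω hω
      by_contra hc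
      apply hω
      have hfind : Nat.find (hex ω) ≤ N := Nat.find_min' _ (Or.inl hc)
      have hspec : p ω (Nat.find (hex ω)) := Nat.find_spec (hex ω)
      have hnot : ω ∉ C (Nat.find (hex ω)) := by
        rcases hspec with h | h
        · exact h
        · exact absurd (h N) hc
      have hconst : ∀ n, Nat.find (hex ω) ≤ n →
          (u n).toFun ω = (u (Nat.find (hex ω))).toFun ω := by
        intro n hn
        induction n, hn using Nat.le_induction with
        | base => rfl
        | succ n hn ih =>
          have : ω ∉ A n := by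
            intro h
            apply hnot
            simp only [hC, Set.mem_iUnion]
            exact ⟨n - Nat.find (hex ω), by rwa [Nat.add_sub_cancel' hn]⟩
          simp only [hA, Set.mem_ofPred_eq, not_not] at this
          rw [← this, ih]
      exact hconst N hfind
    have h2 : μ (C N) ≤ ENNReal.ofReal (2 * (1 / 2 : ℝ) ^ N) := by
      refine (measure_iUnion_le _).trans ?_
      have h3 : ∀ k, μ (A (N + k)) ≤ ENNReal.ofReal ((1 / 2 : ℝ) ^ (N + k)) := by
        intro k
        have h4 := hu (N + k) (N + k) (N + k + 1) le_rfl (Nat.le_succ _)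
        rw [RV.dist_def] at h4
        rw [← ofReal_measureReal (measure_ne_top _ _)]
        exact ENNReal.ofReal_le_ofReal h4.le
      refine (ENNReal.tsum_le_tsum h3).trans (le_of_eq ?_)
      rw [← ENNReal.ofReal_tsum_of_nonneg (fun k => by positivity)]
      · congr 1
        simp_rw [pow_add]
        rw [tsum_mul_left, tsum_geometric_of_lt_one (by norm_num) (by norm_num)]
        ring
      · simp_rw [pow_add]
        exact (summable_geometric_of_lt_one (by norm_num) (by norm_num)).mul_left _
    rw [RV.dist_def]
    have h5 := (measure_mono h1).trans h2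
    exact ENNReal.toReal_le_of_le_ofReal (by positivity) h5
  refine squeeze_zero (fun _ => dist_nonneg) key ?_
  have := (tendsto_pow_atTop_nhds_zero_of_lt_one (r := (1 / 2 : ℝ)) (by norm_num)
    (by norm_num)).const_mul 2
  simpa using this

variable {L : FirstOrder.Language.{0, 0}}

lemma isStr_typical (M : Type) [L.Structure M] [Nonempty M] (μ : Measure Ω)
    [IsProbabilityMeasure μ] : (typical (L := L) M μ).IsStr := by
  refine isStr_quot _ ?_ ?_ ?_
  · exact ⟨(RV.const (Classical.arbitrary M) : RV μ M)⟩
  · exact completeRV (μ := μ) M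
  · exact completeRV (μ := μ) Prop

lemma isModel_typical {T : L.Theory} (M : Type) [L.Structure M] [Nonempty M] (hM : M ⊨ T)
    (μ : Measure Ω) [IsProbabilityMeasure μ] (hμ : Atomless μ) :
    (typical (L := L) M μ).IsModel (TR T) :=
  ⟨isStr_typical M μ, fun _ hφ => hφ M hM Ω μ hμ⟩

end Pool.Agent.H568R2.Rand
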