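import Mathlib

/-!
# Continuous logic for the randomization `T^R` of a first-order theory

Two sorts: `K` (random elements) and `B` (events).
-/

open FirstOrder Cardinal MeasureTheory Filter Topology
open scoped unitInterval FirstOrder

noncomputable section

namespace Pool.Agent.H568R2.Rand

/-- Terms of sort `𝓑` (events) in the two-sorted language `L^R`, with variables of sort `𝒦`
taken from `VK` and variables of sort `𝓑` taken from `VB`: variables, the function symbols
`⟦φ(·)⟧ : 𝒦ⁿ → 𝓑` (one for each `L`-formula `φ(x₁,…,xₙ)`), and the Boolean operations.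
(The only terms of sort `𝒦` are the variables.) -/
inductive ETerm (L : FirstOrder.Language.{0, 0}) (VK VB : Type) : Type
  | var : VB → ETerm L VK VB
  | ev : (n : ℕ) → L.Formula (Fin n) → (Fin n → VK) → ETerm L VK VB
  | top : ETerm L VK VB
  | bot : ETerm L VK VB
  | inf : ETerm L VK VB → ETerm L VK VB → ETerm L VK VB
  | sup : ETerm L VK VB → ETerm L VK VB → ETerm L VK VB
  | compl : ETerm L VK VB → ETerm L VK VB

/-- Formulas of continuous logic in the language `L^R`; the parameters (constants) are taken
from `VK` and `VB`; besides, there are `n` free variables of sort `𝒦` and `m` free variables of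
sort `𝓑`. Connectives are all continuous functions `[0,1]^k → [0,1]`, quantifiers are `sup` and
`inf` over either sort. -/
inductive CFormula (L : FirstOrder.Language.{0, 0}) (VK VB : Type) : ℕ → ℕ → Type
  | mu {n m : ℕ} : ETerm L (VK ⊕ Fin n) (VB ⊕ Fin m) → CFormula L VK VB n m
  | dB {n m : ℕ} : ETerm L (VK ⊕ Fin n) (VB ⊕ Fin m) → ETerm L (VK ⊕ Fin n) (VB ⊕ Fin m) →
      CFormula L VK VB n m
  | dK {n m : ℕ} : (VK ⊕ Fin n) → (VK ⊕ Fin n) → CFormula L VK VB n m
  | conn {n m : ℕ} (k : ℕ) : C(Fin k → I, I) → (Fin k → CFormula L VK VB n m) →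
      CFormula L VK VB n m
  | supK {n m : ℕ} : CFormula L VK VB (n + 1) m → CFormula L VK VB n m
  | infK {n m : ℕ} : CFormula L VK VB (n + 1) m → CFormula L VK VB n m
  | supB {n m : ℕ} : CFormula L VK VB n (m + 1) → CFormula L VK VB n m
  | infB {n m : ℕ} : CFormula L VK VB n (m + 1) → CFormula L VK VB n m

/-- Prestructures for `L^R`: pseudometric spaces of diameter at most one with interpretations of
all symbols, every symbol obeying the usual Lipschitz (uniform continuity) bound. -/
structure PreStr (L : FirstOrder.Language.{0, 0}) where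
  K : Type
  B : Type
  [mK : PseudoMetricSpace K]
  [mB : PseudoMetricSpace B]
  dK_le : ∀ x y : K, dist x y ≤ 1
  dB_le : ∀ x y : B, dist x y ≤ 1
  ev : (n : ℕ) → L.Formula (Fin n) → (Fin n → K) → B
  mu : B → I
  top : B
  bot : B
  inf : B → B → B
  sup : B → B → B
  compl : B → B
  ev_lip : ∀ (n : ℕ) (φ : L.Formula (Fin n)) (x y : Fin n → K),
    dist (ev n φ x) (ev n φ y) ≤ ∑ i, dist (x i) (y i)
  mu_lip : ∀ E F : B, |(mu E : ℝ) - (mu F : ℝ)| ≤ dist E F
  inf_lip : ∀ E F E' F' : B, dist (inf E F) (inf E' F') ≤ dist E E' + dist F F'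
  sup_lip : ∀ E F E' F' : B, dist (sup E F) (sup E' F') ≤ dist E E' + dist F F'
  compl_lip : ∀ E F : B, dist (compl E) (compl F) ≤ dist E F

attribute [instance] PreStr.mK PreStr.mB

/-- A (metric) structure: a nonempty prestructure whose two sorts are complete metric spaces. -/
structure PreStr.IsStr {L : FirstOrder.Language.{0, 0}} (N : PreStr L) : Prop where
  nonemptyK : Nonempty N.K
  completeK : CompleteSpace N.K
  completeB : CompleteSpace N.B
  sepK : ∀ x y : N.K, dist x y = 0 → x = y
  sepB : ∀ x y : N.B, dist x y = 0 → x = y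

/-- Value of a term. -/
def ETerm.val {L : FirstOrder.Language.{0, 0}} (N : PreStr L) {VK VB : Type} (v : VK → N.K) (w : VB → N.B) :
    ETerm L VK VB → N.B
  | .var i => w i
  | .ev n φ x => N.ev n φ (fun i => v (x i))
  | .top => N.top
  | .bot => N.bot
  | .inf s t => N.inf (s.val N v w) (t.val N v w)
  | .sup s t => N.sup (s.val N v w) (t.val N v w)
  | .compl s => N.compl (s.val N v w)

/-- Value of a formula `φ(x,y)` with parameters `v`, `w` at the tuples `x` and `y`. -/
def CFormula.val {L : FirstOrder.Language.{0, 0}} (N : PreStr L) {VK VB : Type} (v : VK → N.K)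
    (w : VB → N.B) : {n m : ℕ} → CFormula L VK VB n m → (Fin n → N.K) → (Fin m → N.B) → I
  | _, _, .mu t, x, y => N.mu (t.val N (Sum.elim v x) (Sum.elim w y))
  | _, _, .dB s t, x, y =>
      ⟨dist (s.val N (Sum.elim v x) (Sum.elim w y)) (t.val N (Sum.elim v x) (Sum.elim w y)),
        dist_nonneg, N.dB_le _ _⟩
  | _, _, .dK i j, x, _ =>
      ⟨dist (Sum.elim v x i) (Sum.elim v x j), dist_nonneg, N.dK_le _ _⟩
  | _, _, .conn _ u φs, x, y => u (fun i => (φs i).val N v w x y)
  | _, _, .supK φ, x, y => ⨆ a : N.K, φ.val N v w (Fin.snoc (α := fun _ => N.K) x a) y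
  | _, _, .infK φ, x, y => ⨅ a : N.K, φ.val N v w (Fin.snoc (α := fun _ => N.K) x a) y
  | _, _, .supB φ, x, y => ⨆ a : N.B, φ.val N v w x (Fin.snoc (α := fun _ => N.B) y a)
  | _, _, .infB φ, x, y => ⨅ a : N.B, φ.val N v w x (Fin.snoc (α := fun _ => N.B) y a)

/-- A representative of a point of the metric space `X / (dist = 0)`. -/
def rep {X : Type} [PseudoMetricSpace X] (x : SeparationQuotient X) : X :=
  Function.surjInv SeparationQuotient.surjective_mk x

lemma mk_rep {X : Type} [PseudoMetricSpace X] (x : SeparationQuotient X) :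
    SeparationQuotient.mk (rep x) = x :=
  Function.surjInv_eq SeparationQuotient.surjective_mk x

lemma dist_rep {X : Type} [PseudoMetricSpace X] (x y : SeparationQuotient X) :
    dist (rep x) (rep y) = dist x y := by
  conv_rhs => rw [← mk_rep x, ← mk_rep y]
  rw [SeparationQuotient.dist_mk]

/-- The metric structure obtained from a prestructure by identifying points at distance zero. -/
def PreStr.quot {L : FirstOrder.Language.{0, 0}} (N : PreStr L) : PreStr L where
  K := SeparationQuotient N.K
  B := SeparationQuotient N.B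
  dK_le x y := by rw [← dist_rep]; exact N.dK_le _ _
  dB_le x y := by rw [← dist_rep]; exact N.dB_le _ _
  ev n φ x := SeparationQuotient.mk (N.ev n φ (fun i => rep (x i)))
  mu E := N.mu (rep E)
  top := SeparationQuotient.mk N.top
  bot := SeparationQuotient.mk N.bot
  inf E F := SeparationQuotient.mk (N.inf (rep E) (rep F))
  sup E F := SeparationQuotient.mk (N.sup (rep E) (rep F))
  compl E := SeparationQuotient.mk (N.compl (rep E))
  ev_lip n φ x y := by
    rw [SeparationQuotient.dist_mk]
    refine (N.ev_lip n φ _ _).trans (le_of_eq ?_)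
    exact Finset.sum_congr rfl fun i _ => dist_rep _ _
  mu_lip E F := (N.mu_lip _ _).trans (le_of_eq (dist_rep _ _))
  inf_lip E F E' F' := by
    rw [SeparationQuotient.dist_mk, ← dist_rep E E', ← dist_rep F F']
    exact N.inf_lip _ _ _ _
  sup_lip E F E' F' := by
    rw [SeparationQuotient.dist_mk, ← dist_rep E E', ← dist_rep F F']
    exact N.sup_lip _ _ _ _
  compl_lip E F := by
    rw [SeparationQuotient.dist_mk, ← dist_rep E F]
    exact N.compl_lip _ _

/-- Random variables on `(Ω, μ)` with values in the (discrete) set `X` and countable range. -/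
structure RV {Ω : Type} [MeasurableSpace Ω] (μ : Measure Ω) (X : Type) where
  toFun : Ω → X
  meas : ∀ S : Set X, MeasurableSet (toFun ⁻¹' S)
  ctble : (Set.range toFun).Countable

namespace RV

variable {Ω : Type} [MeasurableSpace Ω] {μ : Measure Ω}

/-- The set where two random variables differ is measurable. -/
lemma measurableSet_ne {X : Type} (f g : RV μ X) : MeasurableSet {ω | f.toFun ω ≠ g.toFun ω} := by
  have h : {ω | f.toFun ω ≠ g.toFun ω} =
      (⋃ x ∈ Set.range f.toFun, (f.toFun ⁻¹' {x} ∩ g.toFun ⁻¹' {x}))ᶜ := by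
    ext ω
    simp only [Set.mem_ofPred_eq, Set.mem_compl_iff, Set.mem_iUnion, Set.mem_inter_iff,
      Set.mem_preimage, Set.mem_singleton_iff, not_exists, not_and]
    constructor
    · rintro h x _ h1 h2
      exact h (h1.trans h2.symm)
    · intro h h1
      exact h (f.toFun ω) ⟨ω, rfl⟩ rfl h1.symm
  rw [h]
  exact (MeasurableSet.biUnion f.ctble fun x _ => (f.meas _).inter (g.meas _)).compl

/-- The pseudometric `μ {f ≠ g}`. -/
instance [IsProbabilityMeasure μ] (X : Type) : PseudoMetricSpace (RV μ X) where
  dist f g := μ.real {ω | f.toFun ω ≠ g.toFun ω}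
  dist_self f := by simp
  dist_comm f g := by simp only [ne_comm]
  dist_triangle f g h := by
    refine (measureReal_mono ?_).trans (measureReal_union_le _ _)
    intro ω hω
    by_contra hc
    simp only [Set.mem_union, Set.mem_ofPred_eq, not_or, not_not] at hc
    exact hω (hc.1.trans hc.2)

lemma dist_def [IsProbabilityMeasure μ] {X : Type} (f g : RV μ X) :
    dist f g = μ.real {ω | f.toFun ω ≠ g.toFun ω} := rfl

/-- A function of countably valued random variables is such a random variable. -/
lemma meas_comp {X : Type} {n : ℕ} (f : Fin n → RV μ X) {Y : Type} (g : (Fin n → X) → Y) :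
    ∀ S : Set Y, MeasurableSet ((fun ω => g (fun i => (f i).toFun ω)) ⁻¹' S) := by
  intro S
  have hc : (Set.range fun ω => (fun i => (f i).toFun ω)).Countable := by
    refine (Set.countable_pi fun i => (f i).ctble).mono ?_
    rintro _ ⟨ω, rfl⟩ i
    exact ⟨ω, rfl⟩
  have h : ((fun ω => g (fun i => (f i).toFun ω)) ⁻¹' S) =
      ⋃ x ∈ (Set.range fun ω => (fun i => (f i).toFun ω)) ∩ g ⁻¹' S,
        ⋂ i, (f i).toFun ⁻¹' {x i} := by
    ext ω
    simp only [Set.mem_preimage, Set.mem_iUnion, Set.mem_iInter, Set.mem_singleton_iff,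
      Set.mem_inter_iff, exists_prop]
    constructor
    · intro h
      exact ⟨_, ⟨⟨ω, rfl⟩, h⟩, fun i => rfl⟩
    · rintro ⟨x, ⟨_, h2⟩, h3⟩
      have : (fun i => (f i).toFun ω) = x := funext h3
      rw [this]; exact h2
  rw [h]
  exact MeasurableSet.biUnion (hc.mono Set.inter_subset_left) fun x _ =>
    MeasurableSet.iInter fun i => (f i).meas _

lemma range_comp {X : Type} {n : ℕ} (f : Fin n → RV μ X) {Y : Type} (g : (Fin n → X) → Y) :
    (Set.range (fun ω => g (fun i => (f i).toFun ω))).Countable := by
  have hc : (Set.range fun ω => (fun i => (f i).toFun ω)).Countable := by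
    refine (Set.countable_pi fun i => (f i).ctble).mono ?_
    rintro _ ⟨ω, rfl⟩ i
    exact ⟨ω, rfl⟩
  have : (Set.range (fun ω => g (fun i => (f i).toFun ω))) =
      g '' (Set.range fun ω => (fun i => (f i).toFun ω)) := by
    rw [← Set.range_comp]; rfl
  rw [this]
  exact hc.image g

/-- `g(f₁,…,fₙ)` -/
def comp {X : Type} {n : ℕ} (f : Fin n → RV μ X) {Y : Type} (g : (Fin n → X) → Y) : RV μ Y where
  toFun ω := g (fun i => (f i).toFun ω)
  meas := meas_comp f g
  ctble := range_comp f g

/-- `g(f₁,f₂)` -/
def comp₂ {X Y : Type} (g : X → X → Y) (f₁ f₂ : RV μ X) : RV μ Y :=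
  comp ![f₁, f₂] (fun x => g (x 0) (x 1))

/-- `g(f)` -/
def comp₁ {X Y : Type} (g : X → Y) (f : RV μ X) : RV μ Y :=
  comp ![f] (fun x => g (x 0))

/-- constants -/
def const {Y : Type} (y : Y) : RV μ Y where
  toFun _ := y
  meas S := by by_cases h : y ∈ S <;> simp [Set.preimage, h]
  ctble := (Set.countable_singleton y).mono (by rintro _ ⟨_, rfl⟩; rfl)

end RV

/-- The prestructure of random elements of `M` (measurable maps `Ω → M` with countable range) and
events of `(Ω, μ)` (measurable maps `Ω → Prop`, i.e. measurable sets). -/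
def typicalPre {L : FirstOrder.Language.{0, 0}} (M : Type) [L.Structure M] {Ω : Type} [MeasurableSpace Ω]
    (μ : Measure Ω) [IsProbabilityMeasure μ] : PreStr L where
  K := RV μ M
  B := RV μ Prop
  dK_le x y := measureReal_le_one
  dB_le x y := measureReal_le_one
  ev n φ f := RV.comp f (fun x => φ.Realize x)
  mu E := ⟨μ.real {ω | E.toFun ω}, measureReal_nonneg, measureReal_le_one⟩
  top := RV.const True
  bot := RV.const False
  inf E F := RV.comp₂ (fun a b => a ∧ b) E F
  sup E F := RV.comp₂ (fun a b => a ∨ b) E F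
  compl E := RV.comp₁ (fun a => ¬ a) E
  ev_lip n φ x y := by
    simp only [RV.dist_def]
    refine (measureReal_mono ?_ (measure_ne_top _ _)).trans (measureReal_iUnion_fintype_le _)
    intro ω hω
    by_contra hc
    simp only [Set.mem_iUnion, Set.mem_ofPred_eq, not_exists, not_not] at hc
    apply hω
    have : (fun i => (x i).toFun ω) = (fun i => (y i).toFun ω) := funext hc
    simp only [RV.comp, this]
  mu_lip E F := by
    simp only [RV.dist_def]
    have key : ∀ E F : RV μ Prop, μ.real {ω | E.toFun ω} ≤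
        μ.real {ω | F.toFun ω} + μ.real {ω | E.toFun ω ≠ F.toFun ω} := by
      intro E F
      refine (measureReal_mono ?_ (measure_ne_top _ _)).trans (measureReal_union_le _ _)
      intro ω hω
      by_cases h : F.toFun ω
      · exact Or.inl h
      · refine Or.inr ?_
        simp only [Set.mem_ofPred_eq] at hω ⊢
        intro h1
        exact h (h1 ▸ hω)
    rw [abs_le]
    have h1 := key E F
    have h2 := key F E
    have h3 : {ω | F.toFun ω ≠ E.toFun ω} = {ω | E.toFun ω ≠ F.toFun ω} := by
      ext ω; exact ne_comm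
    rw [h3] at h2
    constructor <;> linarith
  inf_lip E F E' F' := by
    simp only [RV.dist_def]
    refine (measureReal_mono ?_ (measure_ne_top _ _)).trans (measureReal_union_le _ _)
    intro ω hω
    by_contra hc
    simp only [Set.mem_union, Set.mem_ofPred_eq, not_or, not_not] at hc
    apply hω
    simp [RV.comp₂, RV.comp, hc.1, hc.2]
  sup_lip E F E' F' := by
    simp only [RV.dist_def]
    refine (measureReal_mono ?_ (measure_ne_top _ _)).trans (measureReal_union_le _ _)
    intro ω hω
    by_contra hc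
    simp only [Set.mem_union, Set.mem_ofPred_eq, not_or, not_not] at hc
    apply hω
    simp [RV.comp₂, RV.comp, hc.1, hc.2]
  compl_lip E F := by
    simp only [RV.dist_def]
    refine measureReal_mono ?_ (measure_ne_top _ _)
    intro ω hω
    simp only [Set.mem_ofPred_eq] at hω ⊢
    intro h
    apply hω
    simp [RV.comp₁, RV.comp, h]

/-- The typical model of `T^R` given by `M` and `(Ω, μ)`: random elements and events modulo null
sets. -/
def typical {L : FirstOrder.Language.{0, 0}} (M : Type) [L.Structure M] {Ω : Type} [MeasurableSpace Ω]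
    (μ : Measure Ω) [IsProbabilityMeasure μ] : PreStr L :=
  (typicalPre (L := L) M μ).quot

/-- Atomless measures. -/
def Atomless {Ω : Type} [MeasurableSpace Ω] (μ : Measure Ω) : Prop :=
  ∀ E : Set Ω, MeasurableSet E → μ E ≠ 0 → ∃ F ⊆ E, MeasurableSet F ∧ μ F ≠ 0 ∧ μ F < μ E

/-- The randomization `T^R` of `T`, as a set of closed conditions `φ = 0`: the (complete) theory of
the typical models. -/
def TR {L : FirstOrder.Language.{0, 0}} (T : L.Theory) : Set (CFormula L Empty Empty 0 0) :=
  {φ | ∀ (M : Type) [L.Structure M] [Nonempty M], M ⊨ T →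
    ∀ (Ω : Type) [MeasurableSpace Ω] (μ : Measure Ω) [IsProbabilityMeasure μ], Atomless μ →
      φ.val (typical (L := L) M μ) Empty.elim Empty.elim ![] ![] = 0}

/-- Models of a set `Γ` of closed conditions `φ = 0`. -/
def PreStr.IsModel {L : FirstOrder.Language.{0, 0}} (N : PreStr L) (Γ : Set (CFormula L Empty Empty 0 0)) :
    Prop :=
  N.IsStr ∧ ∀ φ ∈ Γ, φ.val N Empty.elim Empty.elim ![] ![] = 0

/-- For a set `A = AK ∪ AB` of parameters in `N`: the models of the complete theory of
`(N, a)_{a ∈ A}`. -/
structure Ext {L : FirstOrder.Language.{0, 0}} (N : PreStr L) (AK : Set N.K) (AB : Set N.B) where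
  N' : PreStr L
  isStr : N'.IsStr
  iK : AK → N'.K
  iB : AB → N'.B
  elem : ∀ φ : CFormula L AK AB 0 0,
    φ.val N' iK iB ![] ![] = φ.val N Subtype.val Subtype.val ![] ![]

/-- The type over `A` of a tuple. -/
def Ext.tp {L : FirstOrder.Language.{0, 0}} {N : PreStr L} {AK : Set N.K} {AB : Set N.B} (E : Ext N AK AB)
    {n m : ℕ} (a : Fin n → E.N'.K) (e : Fin m → E.N'.B) : CFormula L AK AB n m → I :=
  fun φ => φ.val E.N' E.iK E.iB a e

/-- The type space `S_{n,m}(A)`: types over `A` of tuples of `n` elements of sort `𝒦` and `m`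
elements of sort `𝓑`. -/
def Types {L : FirstOrder.Language.{0, 0}} (N : PreStr L) (AK : Set N.K) (AB : Set N.B) (n m : ℕ) :
    Set (CFormula L AK AB n m → I) :=
  {p | ∃ (E : Ext N AK AB) (a : Fin n → E.N'.K) (e : Fin m → E.N'.B), E.tp a e = p}

/-- The metric on types, `d(p,q) = inf {d(a,b) : a ⊨ p, b ⊨ q}`. -/
def typeDist {L : FirstOrder.Language.{0, 0}} (N : PreStr L) (AK : Set N.K) (AB : Set N.B) {n m : ℕ}
    (p q : CFormula L AK AB n m → I) : ENNReal :=
  ⨅ (E : Ext N AK AB) (a : Fin n → E.N'.K) (e : Fin m → E.N'.B) (b : Fin n → E.N'.K)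
    (f : Fin m → E.N'.B) (_ : E.tp a e = p) (_ : E.tp b f = q), max (edist a b) (edist e f)

/-- `A` has density character at most `lam`. -/
def HasDens {X : Type} [PseudoMetricSpace X] (A : Set X) (lam : Cardinal.{0}) : Prop :=
  ∃ D ⊆ A, #D ≤ lam ∧ A ⊆ closure D

/-- `lam`-stability of a continuous theory `Γ` in the language `L^R`: for every set of parameters
of density character at most `lam` in a model, the type spaces over it have density character at
most `lam` for the metric on types. -/
def CStable {L : FirstOrder.Language.{0, 0}} (Γ : Set (CFormula L Empty Empty 0 0)) (lam : Cardinal.{0}) :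
    Prop :=
  ∀ N : PreStr L, N.IsModel Γ → ∀ (AK : Set N.K) (AB : Set N.B), HasDens AK lam → HasDens AB lam →
    ∀ n m : ℕ, ∃ D ⊆ Types N AK AB n m, #D ≤ lam ∧
      ∀ p ∈ Types N AK AB n m, ∀ ε : ENNReal, 0 < ε → ∃ q ∈ D, typeDist N AK AB p q < ε

/-- `lam`-stability of a first-order theory. -/
def FOStable {L : FirstOrder.Language.{0, 0}} (T : L.Theory) (lam : Cardinal.{0}) : Prop :=
  ∀ (M : Type) [L.Structure M] [Nonempty M], M ⊨ T → ∀ A : Set M, #A ≤ lam →
    ∀ n : ℕ, #((L[[A]].completeTheory M).CompleteType (Fin n)) ≤ lam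

end Pool.Agent.H568R2.Rand
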