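import Pool.Agent.H568R2.Rand.Sep

open FirstOrder Cardinal Filter Topology
open scoped FirstOrder
open FirstOrder.Language

noncomputable section

namespace Pool.Agent.H568R2.Rand

/-- the sentence: for all `y_1..y_m` there is another point with the pattern `τ` -/
def cellSent (L' : FirstOrder.Language.{0, 0}) (P : ℕ → L'.Relations 1) (m k : ℕ)
    (τ : ℕ → Bool) : L'.Sentence :=
  Formula.iAlls (Fin m) (α := Empty) (Formula.iExs Unit (α := Empty ⊕ Fin m)
    ((Formula.iInf fun i : Fin m =>
        ((Term.var (Sum.inr ())).equal (Term.var (Sum.inl (Sum.inr i)))).not) ⊓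
     (Formula.iInf fun j : Fin k =>
        if τ j then (P j).formula₁ (Term.var (Sum.inr ()))
        else ((P j).formula₁ (Term.var (Sum.inr ()))).not)))

lemma realize_cellSent (L' : FirstOrder.Language.{0, 0}) (P : ℕ → L'.Relations 1) (m k : ℕ)
    (τ : ℕ → Bool) (N : Type) [L'.Structure N] :
    N ⊨ cellSent L' P m k τ ↔ ∀ y : Fin m → N, ∃ x : N, (∀ i, x ≠ y i) ∧
      ∀ j < k, (Structure.RelMap (P j) ![x] ↔ τ j = true) := by
  unfold cellSent Sentence.Realize
  rw [Formula.realize_iAlls]
  refine forall_congr' fun y => ?_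
  rw [Formula.realize_iExs]
  constructor
  · rintro ⟨x, hx⟩
    rw [Formula.realize_inf, Formula.realize_iInf, Formula.realize_iInf] at hx
    refine ⟨x (), ?_, ?_⟩
    · intro i
      have := hx.1 i
      rw [Formula.realize_not, Formula.realize_equal] at this
      exact this
    · intro j hj
      have := hx.2 ⟨j, hj⟩
      simp only at this
      by_cases hτ : τ j = true
      · rw [if_pos hτ, Formula.realize_rel₁] at this
        exact iff_of_true this hτ
      · rw [if_neg hτ, Formula.realize_not, Formula.realize_rel₁] at this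
        exact iff_of_false this hτ
  · rintro ⟨x, h1, h2⟩
    refine ⟨fun _ => x, ?_⟩
    rw [Formula.realize_inf, Formula.realize_iInf, Formula.realize_iInf]
    refine ⟨?_, ?_⟩
    · intro i
      rw [Formula.realize_not, Formula.realize_equal]
      exact h1 i
    · intro j
      have := h2 j j.2
      by_cases hτ : τ j = true
      · rw [if_pos hτ, Formula.realize_rel₁]
        exact this.mpr hτ
      · rw [if_neg hτ, Formula.realize_not, Formula.realize_rel₁]
        exact fun h => hτ (this.mp h)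

/-- The theory. -/
def T0 : LP.Theory := LP.completeTheory M0

/-- the predicate symbols of `LP[[A]]` -/
abbrev PS {M : Type} (A : Set M) (j : ℕ) : (LP[[A]]).Relations 1 := Sum.inl (PRel.P j)

/-- the constants of `LP[[A]]` -/
abbrev cc {M : Type} {A : Set M} (a : A) : (LP[[A]]).Constants := LP.con a

/-- the properties of models of `Th(M, a)_{a ∈ A}` we need -/
structure Good {M : Type} [LP.Structure M] (A : Set M) (N : Type) [(LP[[A]]).Structure N] :
    Prop where
  cinj : ∀ a b : A, ((cc a : (LP[[A]]).Constants) : N) = (cc b : (LP[[A]]).Constants) → a = b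
  cP : ∀ (a : A) (j : ℕ), Structure.RelMap (PS A j) ![((cc a : (LP[[A]]).Constants) : N)] ↔
    Structure.RelMap (L := LP) (PRel.P j : LP.Relations 1) ![(a : M)]
  cells : ∀ (m k : ℕ) (τ : ℕ → Bool) (y : Fin m → N), ∃ x : N, (∀ i, x ≠ y i) ∧
      ∀ j < k, (Structure.RelMap (PS A j) ![x] ↔ τ j = true)

/-- similarity -/
structure Sim {M : Type} {A : Set M} {N N' : Type} [(LP[[A]]).Structure N]
    [(LP[[A]]).Structure N'] (S : Finset A) (k : ℕ) {ι : Type} (u : ι → N) (u' : ι → N') :
    Prop where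
  eq : ∀ i j, u i = u j ↔ u' i = u' j
  con : ∀ i, ∀ a ∈ S, u i = ((cc a : (LP[[A]]).Constants) : N) ↔
    u' i = ((cc a : (LP[[A]]).Constants) : N')
  pr : ∀ i, ∀ j < k, Structure.RelMap (PS A j) ![u i] ↔ Structure.RelMap (PS A j) ![u' i]

section

variable {M : Type} [LP.Structure M] {A : Set M} {N N' : Type} [(LP[[A]]).Structure N]
    [(LP[[A]]).Structure N']

lemma Sim.symm {S : Finset A} {k : ℕ} {ι : Type} {u : ι → N} {u' : ι → N'}
    (h : Sim S k u u') : Sim S k u' u :=
  ⟨fun i j => (h.eq i j).symm, fun i a ha => (h.con i a ha).symm,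
    fun i j hj => (h.pr i j hj).symm⟩

lemma Sim.mono {S S' : Finset A} {k k' : ℕ} {ι : Type} {u : ι → N} {u' : ι → N'}
    (h : Sim S k u u') (hS : S' ⊆ S) (hk : k' ≤ k) : Sim S' k' u u' :=
  ⟨h.eq, fun i a ha => h.con i a (hS ha), fun i j hj => h.pr i j (hj.trans_le hk)⟩

lemma step (hN : Good A N) (hN' : Good A N') {S : Finset A} {k : ℕ} {ι : Type} [Finite ι]
    {u : ι → N} {u' : ι → N'} (h : Sim S k u u') (x : N) :
    ∃ x' : N', (∀ i, u i = x ↔ u' i = x') ∧
      (∀ a ∈ S, x = ((cc a : (LP[[A]]).Constants) : N) ↔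
        x' = ((cc a : (LP[[A]]).Constants) : N')) ∧
      ∀ j < k, (Structure.RelMap (PS A j) ![x] ↔ Structure.RelMap (PS A j) ![x']) := by
  classical
  by_cases h1 : ∃ i, u i = x
  · obtain ⟨i, rfl⟩ := h1
    exact ⟨u' i, fun j => h.eq j i, fun a ha => h.con i a ha, fun j hj => h.pr i j hj⟩
  by_cases h2 : ∃ a ∈ S, x = ((cc a : (LP[[A]]).Constants) : N)
  · obtain ⟨a, ha, rfl⟩ := h2
    refine ⟨((cc a : (LP[[A]]).Constants) : N'), fun i => h.con i a ha, fun b hb => ?_,
      fun j hj => ?_⟩
    · constructor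
      · intro h3; rw [hN.cinj a b h3]
      · intro h3; rw [hN'.cinj a b h3]
    · rw [hN.cP, hN'.cP]
  push Not at h1 h2
  -- list all elements to be avoided
  have hfin : Finite (ι ⊕ S) := inferInstance
  obtain ⟨n, ⟨e⟩⟩ := Finite.exists_equiv_fin (ι ⊕ S)
  obtain ⟨x', hx1, hx2⟩ := hN'.cells n k
    (fun j => decide (Structure.RelMap (PS A j) ![x]))
    (fun i => Sum.elim u' (fun a : S => ((cc (a : A) : (LP[[A]]).Constants) : N')) (e.symm i))
  refine ⟨x', fun i => ?_, fun a ha => ?_, fun j hj => ?_⟩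
  · refine iff_of_false (h1 i) ?_
    have := hx1 (e (Sum.inl i))
    simp only [Equiv.symm_apply_apply, Sum.elim_inl] at this
    exact this.symm
  · refine iff_of_false (h2 a ha) ?_
    have := hx1 (e (Sum.inr ⟨a, ha⟩))
    simp only [Equiv.symm_apply_apply, Sum.elim_inr] at this
    exact this
  · rw [hx2 j hj]
    simp

lemma term_cases {β : Type} (t : (LP[[A]]).Term β) :
    (∃ i, t = Term.var i) ∨ ∃ a : A, t = (cc a : (LP[[A]]).Constants).term := by
  cases t with
  | var i => exact Or.inl ⟨i, rfl⟩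
  | @func l f ts =>
    rcases f with f | f
    · exact Empty.elim f
    · match l, f, ts with
      | 0, f, ts =>
        refine Or.inr ⟨f, ?_⟩
        have : ts = default := Subsingleton.elim _ _
        rw [this]
        rfl
      | (l + 1), f, ts => exact PEmpty.elim f

lemma elim_snoc_cases {X : Type} {n m : ℕ} (v : Fin n → X) (xs : Fin m → X) (x : X)
    (i : Fin n ⊕ Fin (m + 1)) :
    i = Sum.inr (Fin.last m) ∨ ∃ i' : Fin n ⊕ Fin m, i = Sum.map id Fin.castSucc i' := by
  rcases i with i | i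
  · exact Or.inr ⟨Sum.inl i, rfl⟩
  · refine Fin.lastCases (Or.inl rfl) (fun i => Or.inr ⟨Sum.inr i, rfl⟩) i

lemma elim_snoc_old {X : Type} {n m : ℕ} (v : Fin n → X) (xs : Fin m → X) (x : X)
    (i' : Fin n ⊕ Fin m) :
    Sum.elim v (Fin.snoc (α := fun _ => X) xs x) (Sum.map id Fin.castSucc i') =
      Sum.elim v xs i' := by
  rcases i' with i | i <;> simp

lemma elim_snoc_new {X : Type} {n m : ℕ} (v : Fin n → X) (xs : Fin m → X) (x : X) :
    Sum.elim v (Fin.snoc (α := fun _ => X) xs x) (Sum.inr (Fin.last m)) = x := by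
  simp

lemma sim_snoc {S : Finset A} {k : ℕ} {n m : ℕ} {v : Fin n → N} {xs : Fin m → N}
    {v' : Fin n → N'} {xs' : Fin m → N'} (h : Sim S k (Sum.elim v xs) (Sum.elim v' xs'))
    {x : N} {x' : N'} (h1 : ∀ i, Sum.elim v xs i = x ↔ Sum.elim v' xs' i = x')
    (h2 : ∀ a ∈ S, x = ((cc a : (LP[[A]]).Constants) : N) ↔
        x' = ((cc a : (LP[[A]]).Constants) : N'))
    (h3 : ∀ j < k, (Structure.RelMap (PS A j) ![x] ↔ Structure.RelMap (PS A j) ![x'])) :
    Sim S k (Sum.elim v (Fin.snoc (α := fun _ => N) xs x))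
      (Sum.elim v' (Fin.snoc (α := fun _ => N') xs' x')) := by
  refine ⟨?_, ?_, ?_⟩
  · intro i j
    rcases elim_snoc_cases v xs x i with rfl | ⟨i, rfl⟩ <;>
    rcases elim_snoc_cases v xs x j with rfl | ⟨j, rfl⟩ <;>
    simp only [elim_snoc_new, elim_snoc_old]
    · rw [eq_comm, h1 j, eq_comm]
    · exact h1 i
    · exact h.eq i j
  · intro i a ha
    rcases elim_snoc_cases v xs x i with rfl | ⟨i, rfl⟩ <;>
    simp only [elim_snoc_new, elim_snoc_old]
    · exact h2 a ha
    · exact h.con i a ha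
  · intro i j hj
    rcases elim_snoc_cases v xs x i with rfl | ⟨i, rfl⟩ <;>
    simp only [elim_snoc_new, elim_snoc_old]
    · exact h3 j hj
    · exact h.pr i j hj

lemma main_ind (hN : Good A N) (hN' : Good A N') {n m : ℕ}
    (φ : (LP[[A]]).BoundedFormula (Fin n) m) :
    ∃ (S : Finset A) (k : ℕ), ∀ (v : Fin n → N) (xs : Fin m → N) (v' : Fin n → N')
      (xs' : Fin m → N'), Sim S k (Sum.elim v xs) (Sum.elim v' xs') →
        (φ.Realize v xs ↔ φ.Realize v' xs') := by
  classical
  induction φ with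
  | falsum => exact ⟨∅, 0, fun _ _ _ _ _ => Iff.rfl⟩
  | equal t₁ t₂ =>
    rcases term_cases t₁ with ⟨i, rfl⟩ | ⟨a, rfl⟩ <;> rcases term_cases t₂ with ⟨j, rfl⟩ | ⟨b, rfl⟩
    · refine ⟨∅, 0, fun v xs v' xs' h => ?_⟩
      exact h.eq i j
    · refine ⟨{b}, 0, fun v xs v' xs' h => ?_⟩
      simp only [BoundedFormula.Realize, Term.realize_var, Term.realize_constants]
      exact h.con i b (Finset.mem_singleton_self b)
    · refine ⟨{a}, 0, fun v xs v' xs' h => ?_⟩
      simp only [BoundedFormula.Realize, Term.realize_var, Term.realize_constants]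
      rw [eq_comm, h.con j a (Finset.mem_singleton_self a), eq_comm]
    · refine ⟨∅, 0, fun v xs v' xs' h => ?_⟩
      simp only [BoundedFormula.Realize, Term.realize_constants]
      constructor
      · intro h3; rw [hN.cinj a b h3]
      · intro h3; rw [hN'.cinj a b h3]
  | @rel m l R ts =>
    rcases R with R | R
    · match l, R, ts with
      | 1, PRel.P j, ts =>
        have key : ∀ {N : Type} [(LP[[A]]).Structure N] (v : Fin n → N) (xs : Fin m → N),
            (BoundedFormula.rel (Sum.inl (PRel.P j) : (LP[[A]]).Relations 1) ts).Realize v xs ↔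
              Structure.RelMap (PS A j) ![(ts 0).realize (Sum.elim v xs)] := by
          intro N _ v xs
          simp only [BoundedFormula.Realize]
          rw [iff_eq_eq]
          congr 1
          funext i
          fin_cases i
          rfl
        rcases term_cases (ts 0) with ⟨i, hi⟩ | ⟨a, ha⟩
        · refine ⟨∅, j + 1, fun v xs v' xs' h => ?_⟩
          rw [key, key, hi]
          exact h.pr i j (Nat.lt_succ_self j)
        · refine ⟨∅, 0, fun v xs v' xs' h => ?_⟩
          rw [key, key, ha, Term.realize_constants, Term.realize_constants, hN.cP, hN'.cP]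
    · exact Empty.elim R
  | imp φ ψ ihφ ihψ =>
    obtain ⟨S₁, k₁, h₁⟩ := ihφ
    obtain ⟨S₂, k₂, h₂⟩ := ihψ
    refine ⟨S₁ ∪ S₂, max k₁ k₂, fun v xs v' xs' h => ?_⟩
    simp only [BoundedFormula.realize_imp]
    rw [h₁ v xs v' xs' (h.mono Finset.subset_union_left (le_max_left _ _)),
      h₂ v xs v' xs' (h.mono Finset.subset_union_right (le_max_right _ _))]
  | all φ ih =>
    obtain ⟨S, k, ih⟩ := ih
    refine ⟨S, k, fun v xs v' xs' h => ?_⟩
    simp only [BoundedFormula.realize_all]
    constructor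
    · intro hall x'
      obtain ⟨x, h1, h2, h3⟩ := step hN' hN h.symm x'
      exact (ih v _ v' _ (sim_snoc h (fun i => (h1 i).symm) (fun a ha => (h2 a ha).symm)
        (fun j hj => (h3 j hj).symm))).mp (hall x)
    · intro hall x
      obtain ⟨x', h1, h2, h3⟩ := step hN hN' h x
      exact (ih v _ v' _ (sim_snoc h h1 h2 h3)).mpr (hall x')

end

end Pool.Agent.H568R2.Rand
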