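import Pool.Agent.H568R2.Rand.FO

open FirstOrder Cardinal Filter Topology
open scoped FirstOrder
open FirstOrder.Language

noncomputable section

namespace Pool.Agent.H568R2.Rand

lemma relMap_M0 (j : ℕ) (x : M0) :
    Structure.RelMap (L := LP) (PRel.P j : LP.Relations 1) ![x] ↔ x.1 j = true := Iff.rfl

lemma cells_M0 (m k : ℕ) (τ : ℕ → Bool) (y : Fin m → M0) : ∃ x : M0, (∀ i, x ≠ y i) ∧
    ∀ j < k, (Structure.RelMap (L := LP) (PRel.P j : LP.Relations 1) ![x] ↔ τ j = true) := by
  classical
  obtain ⟨l, hl⟩ := Infinite.exists_notMem_finset (Finset.univ.image fun i => (y i).2)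
  refine ⟨(τ, l), fun i h => hl ?_, fun j _ => Iff.rfl⟩
  rw [Finset.mem_image]
  exact ⟨i, Finset.mem_univ _, by rw [← h]⟩

lemma cells_M {M : Type} [LP.Structure M] (hM : M ⊨ T0) (m k : ℕ) (τ : ℕ → Bool)
    (y : Fin m → M) : ∃ x : M, (∀ i, x ≠ y i) ∧
    ∀ j < k, (Structure.RelMap (L := LP) (PRel.P j : LP.Relations 1) ![x] ↔ τ j = true) := by
  have h1 : M0 ⊨ cellSent LP (fun j => (PRel.P j : LP.Relations 1)) m k τ :=
    (realize_cellSent LP _ m k τ M0).mpr (cells_M0 m k τ)
  have h2 : cellSent LP (fun j => (PRel.P j : LP.Relations 1)) m k τ ∈ T0 := h1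
  have h3 := hM.realize_of_mem _ h2
  exact (realize_cellSent LP _ m k τ M).mp h3 y

lemma good_self {M : Type} [LP.Structure M] (hM : M ⊨ T0) (A : Set M) : Good A M where
  cinj a b h := by
    simp only [cc, coe_con] at h
    exact Subtype.ext h
  cP a j := by
    simp only [cc, coe_con]
    exact Iff.rfl
  cells m k τ y := cells_M hM m k τ y

lemma good_of_model {M : Type} [LP.Structure M] (hM : M ⊨ T0) (A : Set M)
    (N : Type) [(LP[[A]]).Structure N] (hN : N ⊨ (LP[[A]]).completeTheory M) : Good A N := by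
  have key : ∀ φ : (LP[[A]]).Sentence, N ⊨ φ ↔ M ⊨ φ := by
    intro φ
    constructor
    · intro h
      by_contra hc
      have h1 : φ.not ∈ (LP[[A]]).completeTheory M := by
        rw [mem_completeTheory, Sentence.realize_not]
        exact hc
      have h2 := hN.realize_of_mem _ h1
      rw [Sentence.realize_not] at h2
      exact h2 h
    · intro h
      exact hN.realize_of_mem _ h
  have hg := good_self hM A
  refine ⟨?_, ?_, ?_⟩
  · intro a b h
    apply hg.cinj a b
    have h1 := key (((cc a : (LP[[A]]).Constants).term).equal ((cc b : (LP[[A]]).Constants).term))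
    simp only [Sentence.Realize, Formula.realize_equal, Term.realize_constants] at h1
    exact h1.mp h
  · intro a j
    have h1 := key ((PS A j).formula₁ ((cc a : (LP[[A]]).Constants).term))
    simp only [Sentence.Realize, Formula.realize_rel₁, Term.realize_constants] at h1
    rw [h1]
    exact hg.cP a j
  · intro m k τ
    have h1 := key (cellSent (LP[[A]]) (PS A) m k τ)
    rw [realize_cellSent, realize_cellSent] at h1
    exact h1.mpr (hg.cells m k τ)

section count

variable {M : Type} [LP.Structure M] {A : Set M}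

/-- which constant is it? -/
def whichC (A : Set M) {N : Type} [(LP[[A]]).Structure N] (x : N) : Option A := by
  classical
  exact if h : ∃ a : A, x = ((cc a : (LP[[A]]).Constants) : N) then some h.choose else none

lemma whichC_eq {N : Type} [(LP[[A]]).Structure N] (hN : Good A N) (x : N) (a : A) :
    whichC A x = some a ↔ x = ((cc a : (LP[[A]]).Constants) : N) := by
  unfold whichC
  constructor
  · intro h
    split_ifs at h with h1
    have h2 := h1.choose_spec
    rw [Option.some.inj h] at h2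
    exact h2
  · intro h
    have h1 : ∃ a : A, x = ((cc a : (LP[[A]]).Constants) : N) := ⟨a, h⟩
    rw [dif_pos h1]
    congr 1
    apply hN.cinj
    rw [← h1.choose_spec, h]

/-- the data determining a type -/
abbrev Data (A : Set M) (n : ℕ) : Type :=
  (Fin n → Fin n → Prop) × (Fin n → Option A) × (Fin n → ℕ → Prop)

/-- the data of a tuple -/
def dat (A : Set M) {N : Type} [(LP[[A]]).Structure N] {n : ℕ} (v : Fin n → N) : Data A n :=
  (fun i j => v i = v j, fun i => whichC A (v i),
    fun i j => Structure.RelMap (PS A j) ![v i])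

lemma sim_of_dat {N N' : Type} [(LP[[A]]).Structure N] [(LP[[A]]).Structure N']
    (hN : Good A N) (hN' : Good A N') {n : ℕ} (v : Fin n → N) (v' : Fin n → N')
    (h : dat A v = dat A v') (S : Finset A) (k : ℕ) (xs : Fin 0 → N) (xs' : Fin 0 → N') :
    Sim S k (Sum.elim v xs) (Sum.elim v' xs') := by
  have h1 : ∀ i j, (v i = v j) = (v' i = v' j) := fun i j =>
    congrFun (congrFun (congrArg Prod.fst h) i) j
  have h2 : ∀ i, whichC A (v i) = whichC A (v' i) := fun i =>
    congrFun (congrArg (fun x => x.2.1) h) i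
  have h3 : ∀ i j, Structure.RelMap (PS A j) ![v i] = Structure.RelMap (PS A j) ![v' i] :=
    fun i j => congrFun (congrFun (congrArg (fun x => x.2.2) h) i) j
  refine ⟨?_, ?_, ?_⟩
  · rintro (i | i) (j | j)
    · exact (h1 i j).to_iff
    · exact j.elim0
    · exact i.elim0
    · exact i.elim0
  · rintro (i | i) a _
    · simp only [Sum.elim_inl]
      rw [← whichC_eq hN, ← whichC_eq hN', h2]
    · exact i.elim0
  · rintro (i | i) j _
    · exact (h3 i j).to_iff
    · exact i.elim0

lemma typeOf_eq {T' : (LP[[A]]).Theory} {N N' : Type} [(LP[[A]]).Structure N]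
    [(LP[[A]]).Structure N'] [N ⊨ T'] [N' ⊨ T'] [Nonempty N] [Nonempty N']
    (hN : Good A N) (hN' : Good A N') {n : ℕ} (v : Fin n → N) (v' : Fin n → N')
    (h : dat A v = dat A v') : T'.typeOf v = T'.typeOf v' := by
  refine SetLike.ext fun φ => ?_
  rw [Theory.CompleteType.mem_typeOf, Theory.CompleteType.mem_typeOf]
  obtain ⟨S, k, hS⟩ := main_ind hN hN' (Formula.equivSentence.symm φ)
  exact hS v default v' default (sim_of_dat hN hN' v v' h S k _ _)

lemma card_types (hM : M ⊨ T0) (A : Set M) (n : ℕ) :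
    #(((LP[[A]]).completeTheory M).CompleteType (Fin n)) ≤ #(Data A n) := by
  have hex := fun p : ((LP[[A]]).completeTheory M).CompleteType (Fin n) =>
    Theory.exists_modelType_is_realized_in _ p
  choose N hN using hex
  choose v hv using hN
  have hg : ∀ p, Good A (N p) := fun p => good_of_model hM A (N p) (N p).is_model
  refine mk_le_of_injective (f := fun p => dat A (v p)) ?_
  intro p q hpq
  rw [← hv p, ← hv q]
  exact typeOf_eq (hg p) (hg q) (v p) (v q) hpq

lemma card_data (A : Set M) (n : ℕ) {lam : Cardinal.{0}} (h0 : 2 ^ ℵ₀ ≤ lam) (hA : #A ≤ lam) :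
    #(Data A n) ≤ lam := by
  have h1 : ℵ₀ ≤ lam := (cantor ℵ₀).le.trans h0
  have h2 : #(Fin n → Fin n → Prop) ≤ lam := (mk_le_aleph0).trans h1
  have h3 : #(Fin n → Option A) ≤ lam := by
    have : #(Fin n → Option A) = (#A + 1) ^ n := by simp
    rw [this]
    refine (power_le_power_right (add_le_add hA (one_le_aleph0.trans h1)) :
      (#A + 1) ^ (n : Cardinal) ≤ (lam + lam) ^ (n : Cardinal)).trans ?_
    rw [add_eq_self h1]
    exact power_nat_le h1
  have h4 : #(Fin n → ℕ → Prop) ≤ lam := by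
    have : #(Fin n → ℕ → Prop) = (2 ^ ℵ₀) ^ n := by simp
    rw [this]
    refine (power_le_power_right h0 :
      (2 ^ ℵ₀ : Cardinal) ^ (n : Cardinal) ≤ lam ^ (n : Cardinal)).trans ?_
    exact power_nat_le h1
  calc #(Data A n) = #(Fin n → Fin n → Prop) * (#(Fin n → Option A) * #(Fin n → ℕ → Prop)) := by
        simp only [Data, mk_prod, lift_id]
    _ ≤ lam * (lam * lam) := mul_le_mul' h2 (mul_le_mul' h3 h4)
    _ = lam := by rw [mul_eq_self h1, mul_eq_self h1]

end count

/-- `T0` is `lam`-stable for every `lam ≥ 2^ℵ₀`. -/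
theorem FOStable_T0 {lam : Cardinal.{0}} (h0 : 2 ^ ℵ₀ ≤ lam) : FOStable T0 lam := by
  intro M _ _ hM A hA n
  exact (card_types hM A n).trans (card_data A n h0 hA)

lemma T0_complete : T0.IsComplete := completeTheory.isComplete LP M0

lemma M0_model : M0 ⊨ T0 := inferInstanceAs (M0 ⊨ LP.completeTheory M0)

/-- There are cardinals with `2^ℵ₀ ≤ lam < lam^ℵ₀`. -/
lemma exists_lam : ∃ lam : Cardinal.{0}, 2 ^ ℵ₀ ≤ lam ∧ lam < lam ^ ℵ₀ := by
  -- `lam = sup of 2^ℵ₀, 2^2^ℵ₀, …`
  let f : ℕ → Cardinal.{0} := fun n => (fun x => (2 : Cardinal.{0}) ^ x)^[n] (2 ^ ℵ₀)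
  have hf0 : f 0 = 2 ^ ℵ₀ := rfl
  have hfs : ∀ n, f (n + 1) = 2 ^ f n := fun n => Function.iterate_succ_apply' _ _ _
  have hlt : ∀ n, f n < f (n + 1) := fun n => by rw [hfs]; exact cantor _
  have hbdd : BddAbove (Set.range f) := bddAbove_of_small
  have hle : ∀ n, f n ≤ Cardinal.sum f := fun n => le_sum f n
  refine ⟨Cardinal.sum f, (hle 0), ?_⟩
  calc Cardinal.sum f < Cardinal.prod fun n => f (n + 1) := sum_lt_prod _ _ hlt
    _ ≤ Cardinal.prod fun _ : ℕ => Cardinal.sum f := prod_le_prod _ _ fun n => hle (n + 1)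
    _ = Cardinal.sum f ^ ℵ₀ := by simp

end Pool.Agent.H568R2.Rand
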