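import Pool.Agent.H568R2.Rand.Defs

open FirstOrder Cardinal MeasureTheory Filter Topology
open scoped unitInterval FirstOrder

noncomputable section

namespace Pool.Agent.H568R2.Rand

variable {L : FirstOrder.Language.{0, 0}}

lemma dist_rep_mk {X : Type} [PseudoMetricSpace X] (x : X) :
    dist (rep (SeparationQuotient.mk x)) x = 0 := by
  rw [← SeparationQuotient.dist_mk, mk_rep, dist_self]

lemma mk_eq_of_dist {X : Type} [PseudoMetricSpace X] {x y : X} (h : dist x y ≤ 0) :
    SeparationQuotient.mk x = SeparationQuotient.mk y := by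
  apply eq_of_dist_eq_zero
  rw [SeparationQuotient.dist_mk]
  exact le_antisymm h dist_nonneg

lemma quot_ev (N : PreStr L) (n : ℕ) (φ : L.Formula (Fin n)) (x : Fin n → N.K) :
    N.quot.ev n φ (fun i => (SeparationQuotient.mk (x i) : SeparationQuotient N.K)) =
      (SeparationQuotient.mk (N.ev n φ x) : SeparationQuotient N.B) := by
  refine mk_eq_of_dist ((N.ev_lip n φ _ _).trans (le_of_eq ?_))
  exact Finset.sum_eq_zero fun i _ => dist_rep_mk _

lemma quot_mu (N : PreStr L) (E : N.B) :
    N.quot.mu (SeparationQuotient.mk E : SeparationQuotient N.B) = N.mu E := by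
  apply Subtype.ext
  have h := N.mu_lip (rep (SeparationQuotient.mk E)) E
  rw [dist_rep_mk] at h
  have h2 := abs_nonneg ((N.mu (rep (SeparationQuotient.mk E)) : ℝ) - (N.mu E : ℝ))
  have h3 : |(N.mu (rep (SeparationQuotient.mk E)) : ℝ) - (N.mu E : ℝ)| = 0 := le_antisymm h h2
  have h4 := abs_eq_zero.mp h3
  exact sub_eq_zero.mp h4

lemma quot_inf (N : PreStr L) (E F : N.B) :
    N.quot.inf (SeparationQuotient.mk E : SeparationQuotient N.B)
      (SeparationQuotient.mk F : SeparationQuotient N.B) =
      (SeparationQuotient.mk (N.inf E F) : SeparationQuotient N.B) := by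
  refine mk_eq_of_dist ((N.inf_lip _ _ _ _).trans (le_of_eq ?_))
  rw [dist_rep_mk, dist_rep_mk, add_zero]

lemma quot_sup (N : PreStr L) (E F : N.B) :
    N.quot.sup (SeparationQuotient.mk E : SeparationQuotient N.B)
      (SeparationQuotient.mk F : SeparationQuotient N.B) =
      (SeparationQuotient.mk (N.sup E F) : SeparationQuotient N.B) := by
  refine mk_eq_of_dist ((N.sup_lip _ _ _ _).trans (le_of_eq ?_))
  rw [dist_rep_mk, dist_rep_mk, add_zero]

lemma quot_compl (N : PreStr L) (E : N.B) :
    N.quot.compl (SeparationQuotient.mk E : SeparationQuotient N.B) =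
      (SeparationQuotient.mk (N.compl E) : SeparationQuotient N.B) := by
  refine mk_eq_of_dist ((N.compl_lip _ _).trans (le_of_eq ?_))
  rw [dist_rep_mk]

/-- the quotient map on the sort `K` -/
def qK (N : PreStr L) (x : N.K) : N.quot.K := (SeparationQuotient.mk x : SeparationQuotient N.K)
/-- the quotient map on the sort `B` -/
def qB (N : PreStr L) (x : N.B) : N.quot.B := (SeparationQuotient.mk x : SeparationQuotient N.B)

lemma dist_qK (N : PreStr L) (x y : N.K) : dist (qK N x) (qK N y) = dist x y :=
  SeparationQuotient.dist_mk _ _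

lemma dist_qB (N : PreStr L) (x y : N.B) : dist (qB N x) (qB N y) = dist x y :=
  SeparationQuotient.dist_mk _ _

lemma qK_surj (N : PreStr L) : Function.Surjective (qK N) := SeparationQuotient.surjective_mk
lemma qB_surj (N : PreStr L) : Function.Surjective (qB N) := SeparationQuotient.surjective_mk

lemma term_quot (N : PreStr L) {VK VB : Type} (v : VK → N.K) (w : VB → N.B)
    (t : ETerm L VK VB) :
    t.val N.quot (fun i => qK N (v i)) (fun i => qB N (w i)) = qB N (t.val N v w) := by
  induction t with
  | var i => rfl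
  | ev n φ x => exact quot_ev N n φ _
  | top => rfl
  | bot => rfl
  | inf s t hs ht => simp only [ETerm.val, hs, ht]; exact quot_inf N _ _
  | sup s t hs ht => simp only [ETerm.val, hs, ht]; exact quot_sup N _ _
  | compl s hs => simp only [ETerm.val, hs]; exact quot_compl N _

lemma elim_qK (N : PreStr L) {V : Type} {n : ℕ} (v : V → N.K) (x : Fin n → N.K) :
    Sum.elim (fun i => qK N (v i)) (fun i => qK N (x i)) = fun i => qK N (Sum.elim v x i) := by
  funext i; cases i <;> rfl

lemma elim_qB (N : PreStr L) {V : Type} {n : ℕ} (v : V → N.B) (x : Fin n → N.B) :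
    Sum.elim (fun i => qB N (v i)) (fun i => qB N (x i)) = fun i => qB N (Sum.elim v x i) := by
  funext i; cases i <;> rfl

lemma snoc_comp {X Y : Type} (f : X → Y) {n : ℕ} (x : Fin n → X) (a : X) :
    (Fin.snoc (α := fun _ => Y) (fun i => f (x i)) (f a) : Fin (n + 1) → Y) =
      fun i => f (Fin.snoc (α := fun _ => X) x a i) := by
  funext i
  refine Fin.lastCases ?_ (fun i => ?_) i <;> simp

lemma val_quot (N : PreStr L) {VK VB : Type} (v : VK → N.K) (w : VB → N.B) {n m : ℕ}
    (φ : CFormula L VK VB n m) : ∀ (x : Fin n → N.K) (y : Fin m → N.B),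
    φ.val N.quot (fun i => qK N (v i)) (fun i => qB N (w i)) (fun i => qK N (x i))
      (fun i => qB N (y i)) = φ.val N v w x y := by
  induction φ with
  | mu t =>
    intro x y
    simp only [CFormula.val, elim_qK, elim_qB, term_quot]
    exact quot_mu N _
  | dB s t =>
    intro x y
    apply Subtype.ext
    simp only [CFormula.val, elim_qK, elim_qB, term_quot]
    exact dist_qB N _ _
  | dK i j =>
    intro x y
    apply Subtype.ext
    simp only [CFormula.val, elim_qK]
    exact dist_qK N _ _
  | conn k u φs ih =>
    intro x y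
    simp only [CFormula.val, ih]
  | supK φ ih =>
    intro x y
    simp only [CFormula.val]
    rw [← (qK_surj N).iSup_comp]
    exact iSup_congr fun a => by rw [snoc_comp]; exact ih _ _
  | infK φ ih =>
    intro x y
    simp only [CFormula.val]
    rw [← (qK_surj N).iInf_comp]
    exact iInf_congr fun a => by rw [snoc_comp]; exact ih _ _
  | supB φ ih =>
    intro x y
    simp only [CFormula.val]
    rw [← (qB_surj N).iSup_comp]
    exact iSup_congr fun a => by rw [snoc_comp]; exact ih _ _
  | infB φ ih =>
    intro x y
    simp only [CFormula.val]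
    rw [← (qB_surj N).iInf_comp]
    exact iInf_congr fun a => by rw [snoc_comp]; exact ih _ _

lemma isStr_quot (N : PreStr L) (h0 : Nonempty N.K) (h1 : CompleteSpace N.K)
    (h2 : CompleteSpace N.B) : N.quot.IsStr where
  nonemptyK := h0.map (qK N)
  completeK := inferInstanceAs (CompleteSpace (SeparationQuotient N.K))
  completeB := inferInstanceAs (CompleteSpace (SeparationQuotient N.B))
  sepK x y h := eq_of_dist_eq_zero (γ := SeparationQuotient N.K) h
  sepB x y h := eq_of_dist_eq_zero (γ := SeparationQuotient N.B) h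

end Pool.Agent.H568R2.Rand
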