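import Pool.Agent.H568R2.Rand.UltraComplete
import Pool.Agent.H568R2.Rand.Coin

open FirstOrder Cardinal MeasureTheory Filter Topology
open scoped unitInterval FirstOrder

noncomputable section

namespace Pool.Agent.H568R2.Rand

/-- The relation symbols `P_0, P_1, …`, all unary. -/
inductive PRel : ℕ → Type
  | P : ℕ → PRel 1

/-- The language with countably many unary predicates. -/
def LP : FirstOrder.Language.{0, 0} := ⟨fun _ => Empty, PRel⟩

/-- The model: `2^ℕ × ℕ`, with `P_j(x, m)` iff `x_j = 1`. -/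
abbrev M0 : Type := (ℕ → Bool) × ℕ

instance : LP.Structure M0 where
  funMap := fun f => Empty.elim f
  RelMap := fun r => match r with
    | PRel.P j => fun v => (v 0).1 j = true

/-- The formula `P_j(x)`. -/
def Pf (j : ℕ) : LP.Formula (Fin 1) :=
  FirstOrder.Language.Relations.formula₁ (L := LP) (PRel.P j : LP.Relations 1)
    (FirstOrder.Language.Term.var 0)

lemma realize_Pf (j : ℕ) (x : Fin 1 → M0) : (Pf j).Realize x ↔ (x 0).1 j = true := by
  unfold Pf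
  rw [Language.Formula.realize_rel₁]
  rfl

section

variable {J : Type}

/-- abbreviation for the typical model over `2^J` -/
abbrev NJ (J : Type) : PreStr LP := typical (L := LP) M0 (coins J)

/-- the prestructure of random elements -/
abbrev PJ (J : Type) : PreStr LP := typicalPre (L := LP) M0 (coins J)

/-- The parameters. -/
def fpar (i : J) : RV (coins J) M0 := RV.comp₁ (fun b => ((fun _ => b), 0)) (coord i)

/-- The approximations. -/
def xs (s : ℕ → J) (n : ℕ) : RV (coins J) M0 :=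
  RV.comp (fun j : Fin n => coord (s j))
    (fun x => ((fun j => if h : j < n then x ⟨j, h⟩ else false), 0))

/-- parameters in the typical model -/
def fparN (i : J) : (NJ J).K := qK (PJ J) (fpar i)

/-- the parameter set -/
def AKJ (J : Type) : Set (NJ J).K := Set.range fparN

/-- the separating formulas -/
def psi (j : ℕ) (a : AKJ J) : CFormula LP (AKJ J) (∅ : Set (NJ J).B) 1 0 :=
  CFormula.dB (ETerm.ev 1 (Pf j) (fun _ => Sum.inr 0)) (ETerm.ev 1 (Pf 0) (fun _ => Sum.inl a))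

/-- closed formulas -/
def chi (a b : AKJ J) : CFormula LP (AKJ J) (∅ : Set (NJ J).B) 0 0 :=
  CFormula.dB (ETerm.ev 1 (Pf 0) (fun _ => Sum.inl a)) (ETerm.ev 1 (Pf 0) (fun _ => Sum.inl b))

lemma nonemptyNJ : Nonempty (NJ J).K := (isStr_typical (L := LP) M0 (coins J)).nonemptyK

lemma val_chi {i j : J} (hij : i ≠ j) :
    dist ((NJ J).ev 1 (Pf 0) (fun _ => fparN i)) ((NJ J).ev 1 (Pf 0) (fun _ => fparN j)) =
      1 / 2 := by
  have h1 : ∀ i : J, (NJ J).ev 1 (Pf 0) (fun _ => fparN i) =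
      qB (PJ J) ((PJ J).ev 1 (Pf 0) (fun _ => fpar i)) := fun i =>
    quot_ev (PJ J) 1 (Pf 0) (fun _ => fpar i)
  rw [h1, h1]
  refine (dist_qB _ _ _).trans ?_
  rw [← coins_ne hij]
  refine (RV.dist_def _ _).trans ?_
  congr 1
  ext ω
  simp only [Set.mem_ofPred_eq, ne_eq]
  have h2 : ∀ i : J, (((PJ J).ev 1 (Pf 0) (fun _ => fpar i) : RV (coins J) Prop).toFun ω) =
      (ω i = true) := by
    intro i
    exact propext (realize_Pf 0 _)
  rw [h2, h2]
  cases ω i <;> cases ω j <;> simp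

/-- the value of `psi` at the approximations. -/
lemma val_xs (s : ℕ → J) {j n : ℕ} (hj : j < n) :
    dist ((NJ J).ev 1 (Pf j) (fun _ => qK (PJ J) (xs s n)))
      ((NJ J).ev 1 (Pf 0) (fun _ => fparN (s j))) = 0 := by
  have h1 : (NJ J).ev 1 (Pf 0) (fun _ => fparN (s j)) =
      qB (PJ J) ((PJ J).ev 1 (Pf 0) (fun _ => fpar (s j))) :=
    quot_ev (PJ J) 1 (Pf 0) (fun _ => fpar (s j))
  have h2 : (NJ J).ev 1 (Pf j) (fun _ => qK (PJ J) (xs s n)) =
      qB (PJ J) ((PJ J).ev 1 (Pf j) (fun _ => xs s n)) :=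
    quot_ev (PJ J) 1 (Pf j) (fun _ => xs s n)
  rw [h1, h2]
  refine (dist_qB _ _ _).trans ?_
  refine (RV.dist_def _ _).trans ?_
  have h3 : {ω : J → Bool | ((PJ J).ev 1 (Pf j) (fun _ => xs s n) : RV (coins J) Prop).toFun ω ≠
      ((PJ J).ev 1 (Pf 0) (fun _ => fpar (s j)) : RV (coins J) Prop).toFun ω} = ∅ := by
    ext ω
    simp only [Set.mem_ofPred_eq, Set.mem_empty_iff_false, iff_false, not_not]
    have e1 : (((PJ J).ev 1 (Pf j) (fun _ => xs s n) : RV (coins J) Prop).toFun ω) =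
        (ω (s j) = true) := by
      refine propext ((realize_Pf j _).trans ?_)
      simp [xs, RV.comp, hj, coord]
    have e2 : (((PJ J).ev 1 (Pf 0) (fun _ => fpar (s j)) : RV (coins J) Prop).toFun ω) =
        (ω (s j) = true) := propext (realize_Pf 0 _)
    rw [e1, e2]
  rw [h3]
  simp

/-- the point realizing the type `p_s`, in the ultrapower -/
def Xs (s : ℕ → J) : (ultra (NJ J)).K := (fun n => qK (PJ J) (xs s n) : Seq (NJ J).K)

/-- The types `p_s`. -/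
def ps (s : ℕ → J) : CFormula LP (AKJ J) (∅ : Set (NJ J).B) 1 0 → I :=
  (ultraExt (NJ J) nonemptyNJ (AKJ J) ∅).tp (fun _ => qK (ultra (NJ J)) (Xs s)) ![]

lemma ps_mem (s : ℕ → J) : ps s ∈ Types (NJ J) (AKJ J) ∅ 1 0 := ⟨_, _, _, rfl⟩

lemma ps_psi (s : ℕ → J) (j : ℕ) : ps s (psi j ⟨fparN (s j), s j, rfl⟩) = 0 := by
  have h1 := val_quot (ultra (NJ J)) (fun a : AKJ J => (fun _ => (a : (NJ J).K) : Seq (NJ J).K))
      (fun b : (∅ : Set (NJ J).B) => (fun _ => (b : (NJ J).B) : Seq (NJ J).B))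
      (psi j ⟨fparN (s j), s j, rfl⟩) (fun _ => Xs s) ![]
  have e4 : (fun i => qB (ultra (NJ J)) ((![] : Fin 0 → (ultra (NJ J)).B) i)) =
      (![] : Fin 0 → (ultra (NJ J)).quot.B) := Subsingleton.elim _ _
  rw [e4] at h1
  have h2 := los (NJ J) nonemptyNJ
    (fun a : AKJ J => (fun _ => (a : (NJ J).K) : Seq (NJ J).K))
    (fun b : (∅ : Set (NJ J).B) => (fun _ => (b : (NJ J).B) : Seq (NJ J).B))
    (psi j ⟨fparN (s j), s j, rfl⟩) (fun _ => Xs s) ![]
  refine h1.trans ?_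
  refine tendsto_nhds_unique h2 ?_
  have h3 : ∀ᶠ n in (U : Filter ℕ), j < n := by
    have h1 : (U : Filter ℕ) ≤ atTop := by
      rw [← Nat.cofinite_eq_atTop]; exact hyperfilter_le_cofinite
    exact h1 (eventually_gt_atTop j)
  refine Tendsto.congr' ?_ tendsto_const_nhds
  filter_upwards [h3] with n hn
  apply Subtype.ext
  exact (val_xs s hn).symm

lemma near_psi {s : ℕ → J} {q : CFormula LP (AKJ J) (∅ : Set (NJ J).B) 1 0 → I}
    (h : typeDist (NJ J) (AKJ J) ∅ (ps s) q < ENNReal.ofReal (1 / 4)) (j : ℕ) :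
    (q (psi j ⟨fparN (s j), s j, rfl⟩) : ℝ) < 1 / 4 := by
  unfold typeDist at h
  simp only [iInf_lt_iff] at h
  obtain ⟨E, a, e, b, f, h1, h2, h3⟩ := h
  have h4 : edist a b < ENNReal.ofReal (1 / 4) := (le_max_left _ _).trans_lt h3
  have h5 : dist a b < 1 / 4 := by
    rw [edist_dist] at h4
    exact (ENNReal.ofReal_lt_ofReal_iff (by norm_num)).mp h4
  have h6 : dist (a 0) (b 0) < 1 / 4 := (dist_le_pi_dist a b 0).trans_lt h5
  have h7 := ps_psi s j
  rw [← h1] at h7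
  rw [← h2]
  have h8 : dist (E.N'.ev 1 (Pf j) (fun _ => a 0))
      (E.N'.ev 1 (Pf 0) (fun _ => E.iK ⟨fparN (s j), s j, rfl⟩)) = 0 :=
    congrArg (fun x : I => (x : ℝ)) h7
  have h9 := E.N'.ev_lip 1 (Pf j) (fun _ => a 0) (fun _ => b 0)
  simp only [Finset.univ_unique, Finset.sum_const, Finset.card_singleton, one_smul] at h9
  have h10 : dist (E.N'.ev 1 (Pf j) (fun _ => b 0))
      (E.N'.ev 1 (Pf 0) (fun _ => E.iK ⟨fparN (s j), s j, rfl⟩)) < 1 / 4 := by
    have := dist_triangle (E.N'.ev 1 (Pf j) (fun _ => b 0)) (E.N'.ev 1 (Pf j) (fun _ => a 0))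
      (E.N'.ev 1 (Pf 0) (fun _ => E.iK ⟨fparN (s j), s j, rfl⟩))
    rw [h8, dist_comm (E.N'.ev 1 (Pf j) (fun _ => b 0)) (E.N'.ev 1 (Pf j) (fun _ => a 0))] at this
    linarith
  exact h10

lemma ps_sep {s t : ℕ → J} {q : CFormula LP (AKJ J) (∅ : Set (NJ J).B) 1 0 → I}
    (hq : q ∈ Types (NJ J) (AKJ J) ∅ 1 0)
    (hs : typeDist (NJ J) (AKJ J) ∅ (ps s) q < ENNReal.ofReal (1 / 4))
    (ht : typeDist (NJ J) (AKJ J) ∅ (ps t) q < ENNReal.ofReal (1 / 4)) : s = t := by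
  by_contra hne
  obtain ⟨j, hj⟩ := Function.ne_iff.mp hne
  obtain ⟨E, b, f, rfl⟩ := hq
  have h1 := near_psi hs j
  have h2 := near_psi ht j
  have h3 : dist (E.N'.ev 1 (Pf j) (fun _ => b 0))
      (E.N'.ev 1 (Pf 0) (fun _ => E.iK ⟨fparN (s j), s j, rfl⟩)) < 1 / 4 := h1
  have h4 : dist (E.N'.ev 1 (Pf j) (fun _ => b 0))
      (E.N'.ev 1 (Pf 0) (fun _ => E.iK ⟨fparN (t j), t j, rfl⟩)) < 1 / 4 := h2
  have h5 := E.elem (chi ⟨fparN (s j), s j, rfl⟩ ⟨fparN (t j), t j, rfl⟩)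
  have h6 : dist (E.N'.ev 1 (Pf 0) (fun _ => E.iK ⟨fparN (s j), s j, rfl⟩))
      (E.N'.ev 1 (Pf 0) (fun _ => E.iK ⟨fparN (t j), t j, rfl⟩)) =
      dist ((NJ J).ev 1 (Pf 0) (fun _ => fparN (s j)))
        ((NJ J).ev 1 (Pf 0) (fun _ => fparN (t j))) :=
    congrArg (fun x : I => (x : ℝ)) h5
  rw [val_chi hj] at h6
  have h7 := dist_triangle_left (E.N'.ev 1 (Pf 0) (fun _ => E.iK ⟨fparN (s j), s j, rfl⟩))
    (E.N'.ev 1 (Pf 0) (fun _ => E.iK ⟨fparN (t j), t j, rfl⟩))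
    (E.N'.ev 1 (Pf j) (fun _ => b 0))
  linarith

end

/-- The randomization is not `lam`-stable if `lam < lam ^ ℵ₀`. -/
theorem not_CStable {T : LP.Theory} (hT : M0 ⊨ T) {lam : Cardinal.{0}} (h0 : ℵ₀ ≤ lam)
    (h1 : lam < lam ^ ℵ₀) : ¬ CStable (TR T) lam := by
  intro hst
  induction lam using Cardinal.inductionOn with | _ J
  have hJ : Infinite J := Cardinal.aleph0_le_mk_iff.mp h0
  have hmodel : (NJ J).IsModel (TR T) := isModel_typical M0 hT (coins J) coins_atomless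
  have hd1 : HasDens (AKJ J) #J := ⟨AKJ J, subset_rfl, mk_range_le, subset_closure⟩
  have hd2 : HasDens (∅ : Set (NJ J).B) #J := ⟨∅, subset_rfl, by simp, by simp⟩
  obtain ⟨D, hD, hDc, hDd⟩ := hst (NJ J) hmodel (AKJ J) ∅ hd1 hd2 1 0
  have hex : ∀ s : ℕ → J, ∃ q ∈ D, typeDist (NJ J) (AKJ J) ∅ (ps s) q < ENNReal.ofReal (1 / 4) :=
    fun s => hDd (ps s) (ps_mem s) _ (by simp)
  choose q hqD hq using hex
  have hinj : Function.Injective (fun s : ℕ → J => (⟨q s, hqD s⟩ : D)) := by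
    intro s t hst
    have hst' : q s = q t := congrArg Subtype.val hst
    exact ps_sep (hD (hqD s)) (hq s) (hst' ▸ hq t)
  have h2 := mk_le_of_injective hinj
  have h3 : #(ℕ → J) = #J ^ ℵ₀ := by simp
  rw [h3] at h2
  exact absurd (h2.trans hDc) (not_le.mpr h1)

end Pool.Agent.H568R2.Rand
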