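import Pool.Agent.H568R2.Rand.Complete

open FirstOrder Cardinal MeasureTheory Filter Topology
open scoped unitInterval FirstOrder

noncomputable section

namespace Pool.Agent.H568R2.Rand

/-- A nonprincipal ultrafilter on `ℕ`. -/
def U : Ultrafilter ℕ := hyperfilter ℕ

/-- limit along `U` -/
def ulim (f : ℕ → I) : I := (Ultrafilter.map f U).lim

lemma tendsto_ulim (f : ℕ → I) : Tendsto f U (𝓝 (ulim f)) :=
  (Ultrafilter.map f U).le_nhds_lim

lemma tendsto_ulim_coe (f : ℕ → I) : Tendsto (fun n => (f n : ℝ)) U (𝓝 (ulim f : ℝ)) :=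
  (continuous_subtype_val.tendsto _).comp (tendsto_ulim f)

/-- Sequences in `X`. -/
def Seq (X : Type) : Type := ℕ → X

/-- the distance as an element of `[0,1]` -/
def dI {X : Type} [PseudoMetricSpace X] (h : ∀ x y : X, dist x y ≤ 1) (x y : X) : I :=
  ⟨dist x y, dist_nonneg, h x y⟩

/-- The ultralimit pseudometric. -/
@[instance_reducible] def seqMetric (X : Type) [PseudoMetricSpace X] (h : ∀ x y : X, dist x y ≤ 1) :
    PseudoMetricSpace (Seq X) where
  dist x y := (ulim fun n => dI h (x n) (y n) : ℝ)
  dist_self x := by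
    have h1 := tendsto_ulim_coe fun n => dI h (x n) (x n)
    have h2 : ∀ n, ((dI h (x n) (x n) : I) : ℝ) = 0 := fun n => dist_self _
    simp only [h2] at h1
    exact tendsto_nhds_unique h1 tendsto_const_nhds
  dist_comm x y := by simp only [dI, dist_comm]
  dist_triangle x y z := by
    refine le_of_tendsto_of_tendsto' (tendsto_ulim_coe _)
      ((tendsto_ulim_coe _).add (tendsto_ulim_coe _)) ?_
    intro n
    exact dist_triangle _ _ _

lemma tendsto_seqDist (X : Type) [PseudoMetricSpace X] (h : ∀ x y : X, dist x y ≤ 1)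
    (x y : Seq X) :
    Tendsto (fun n => dist (x n) (y n)) U (𝓝 ((seqMetric X h).dist x y)) :=
  tendsto_ulim_coe fun n => dI h (x n) (y n)

variable {L : FirstOrder.Language.{0, 0}}

/-- The ultrapower (as a prestructure). -/
def ultra (P : PreStr L) : PreStr L where
  K := Seq P.K
  B := Seq P.B
  mK := seqMetric P.K P.dK_le
  mB := seqMetric P.B P.dB_le
  dK_le x y := (ulim fun n => dI P.dK_le (x n) (y n)).2.2
  dB_le x y := (ulim fun n => dI P.dB_le (x n) (y n)).2.2
  ev n φ x := fun k => P.ev n φ (fun i => x i k)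
  mu E := ulim fun k => P.mu (E k)
  top := fun _ => P.top
  bot := fun _ => P.bot
  inf E F := fun k => P.inf (E k) (F k)
  sup E F := fun k => P.sup (E k) (F k)
  compl E := fun k => P.compl (E k)
  ev_lip n φ x y := by
    refine le_of_tendsto_of_tendsto' (tendsto_seqDist _ P.dB_le _ _)
      (tendsto_finsetSum _ fun i _ => tendsto_seqDist _ P.dK_le (x i) (y i)) ?_
    intro k
    exact P.ev_lip _ _ _ _
  mu_lip E F := by
    refine le_of_tendsto_of_tendsto'
      (((tendsto_ulim_coe fun k => P.mu (E k)).sub (tendsto_ulim_coe fun k => P.mu (F k))).abs)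
      (tendsto_seqDist _ P.dB_le _ _) ?_
    intro k
    exact P.mu_lip _ _
  inf_lip E F E' F' := by
    refine le_of_tendsto_of_tendsto' (tendsto_seqDist _ P.dB_le _ _)
      ((tendsto_seqDist _ P.dB_le _ _).add (tendsto_seqDist _ P.dB_le _ _)) ?_
    intro k
    exact P.inf_lip _ _ _ _
  sup_lip E F E' F' := by
    refine le_of_tendsto_of_tendsto' (tendsto_seqDist _ P.dB_le _ _)
      ((tendsto_seqDist _ P.dB_le _ _).add (tendsto_seqDist _ P.dB_le _ _)) ?_
    intro k
    exact P.sup_lip _ _ _ _
  compl_lip E F := by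
    refine le_of_tendsto_of_tendsto' (tendsto_seqDist _ P.dB_le _ _)
      (tendsto_seqDist _ P.dB_le _ _) ?_
    intro k
    exact P.compl_lip _ _

lemma term_ultra (P : PreStr L) {VK VB : Type} (v : VK → (ultra P).K) (w : VB → (ultra P).B)
    (t : ETerm L VK VB) (k : ℕ) :
    (t.val (ultra P) v w) k = t.val P (fun i => v i k) (fun j => w j k) := by
  induction t with
  | var i => rfl
  | ev n φ x => rfl
  | top => rfl
  | bot => rfl
  | inf s t hs ht => simp only [ETerm.val, ← hs, ← ht]; rfl
  | sup s t hs ht => simp only [ETerm.val, ← hs, ← ht]; rfl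
  | compl s hs => simp only [ETerm.val, ← hs]; rfl

lemma elim_at {X V : Type} {n : ℕ} (v : V → Seq X) (x : Fin n → Seq X) (k : ℕ) :
    (fun i => (Sum.elim v x i : Seq X) k) = Sum.elim (fun i => v i k) (fun i => x i k) := by
  funext i; cases i <;> rfl

lemma snoc_at {X : Type} {n : ℕ} (x : Fin n → Seq X) (a : Seq X) (k : ℕ) :
    (fun i => (Fin.snoc (α := fun _ => Seq X) x a i : Seq X) k) =
      Fin.snoc (α := fun _ => X) (fun i => x i k) (a k) := by
  funext i
  refine Fin.lastCases ?_ (fun i => ?_) i <;> simp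

/-- Abstract form of the quantifier step. -/
lemma tendsto_iSup {X : Type} [Nonempty X] (g : ℕ → X → I) (G : Seq X → I)
    (h : ∀ x : Seq X, Tendsto (fun k => g k (x k)) U (𝓝 (G x))) :
    Tendsto (fun k => ⨆ a, g k a) U (𝓝 (⨆ x, G x)) := by
  have h1 := tendsto_ulim (fun k => ⨆ a, g k a)
  have h2 : ulim (fun k => ⨆ a, g k a) = ⨆ x, G x := by
    apply le_antisymm
    · refine le_of_forall_lt fun b hb => ?_
      obtain ⟨c, hbc, hc⟩ := exists_between hb
      have h3 : ∀ᶠ k in (U : Filter ℕ), c < ⨆ a, g k a := h1.eventually (lt_mem_nhds hc)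
      classical
      have h4 : ∀ k, ∃ a, (c < ⨆ a, g k a) → c < g k a := by
        intro k
        by_cases hk : c < ⨆ a, g k a
        · obtain ⟨a, ha⟩ := lt_iSup_iff.mp hk
          exact ⟨a, fun _ => ha⟩
        · exact ⟨Classical.arbitrary X, fun h => absurd h hk⟩
      choose x hx using h4
      have h5 : c ≤ G x := by
        refine ge_of_tendsto (h x) ?_
        filter_upwards [h3] with k hk
        exact (hx k hk).le
      exact hbc.trans_le (h5.trans (le_iSup G x))
    · refine iSup_le fun x => ?_
      refine le_of_tendsto_of_tendsto' (h x) h1 fun k => ?_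
      exact le_iSup (g k) (x k)
  rwa [h2] at h1

lemma tendsto_iInf {X : Type} [Nonempty X] (g : ℕ → X → I) (G : Seq X → I)
    (h : ∀ x : Seq X, Tendsto (fun k => g k (x k)) U (𝓝 (G x))) :
    Tendsto (fun k => ⨅ a, g k a) U (𝓝 (⨅ x, G x)) := by
  have h1 := tendsto_ulim (fun k => ⨅ a, g k a)
  have h2 : ulim (fun k => ⨅ a, g k a) = ⨅ x, G x := by
    apply le_antisymm
    · refine le_iInf fun x => ?_
      refine le_of_tendsto_of_tendsto' h1 (h x) fun k => ?_
      exact iInf_le (g k) (x k)
    · refine le_of_forall_gt fun b hb => ?_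
      obtain ⟨c, hc, hbc⟩ := exists_between hb
      have h3 : ∀ᶠ k in (U : Filter ℕ), (⨅ a, g k a) < c := h1.eventually (gt_mem_nhds hc)
      classical
      have h4 : ∀ k, ∃ a, ((⨅ a, g k a) < c) → g k a < c := by
        intro k
        by_cases hk : (⨅ a, g k a) < c
        · obtain ⟨a, ha⟩ := iInf_lt_iff.mp hk
          exact ⟨a, fun _ => ha⟩
        · exact ⟨Classical.arbitrary X, fun h => absurd h hk⟩
      choose x hx using h4
      have h5 : G x ≤ c := by
        refine le_of_tendsto (h x) ?_
        filter_upwards [h3] with k hk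
        exact (hx k hk).le
      exact (((iInf_le G x).trans h5).trans_lt hbc)
  rwa [h2] at h1

/-- Łoś' theorem. -/
lemma los (P : PreStr L) (hK : Nonempty P.K) {VK VB : Type} (v : VK → (ultra P).K)
    (w : VB → (ultra P).B) {n m : ℕ} (φ : CFormula L VK VB n m) :
    ∀ (x : Fin n → (ultra P).K) (y : Fin m → (ultra P).B),
    Tendsto (fun k => φ.val P (fun i => v i k) (fun j => w j k) (fun i => x i k) (fun j => y j k))
      U (𝓝 (φ.val (ultra P) v w x y)) := by
  have hB : Nonempty P.B := ⟨P.top⟩
  induction φ with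
  | mu t =>
    intro x y
    have h1 := tendsto_ulim (fun k => P.mu ((t.val (ultra P) (Sum.elim v x) (Sum.elim w y)) k))
    have h2 : ∀ k, (t.val (ultra P) (Sum.elim v x) (Sum.elim w y)) k =
        t.val P (Sum.elim (fun i => v i k) (fun i => x i k))
          (Sum.elim (fun i => w i k) (fun i => y i k)) := by
      intro k
      rw [term_ultra]
      congr 1
      · exact elim_at v x k
      · exact elim_at w y k
    simp only [CFormula.val, ← h2]
    exact h1
  | dB s t =>
    intro x y
    have h1 := tendsto_ulim (fun k => dI P.dB_le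
      ((s.val (ultra P) (Sum.elim v x) (Sum.elim w y)) k)
      ((t.val (ultra P) (Sum.elim v x) (Sum.elim w y)) k))
    have h2 : ∀ (t : ETerm L (VK ⊕ Fin _) (VB ⊕ Fin _)) k,
        (t.val (ultra P) (Sum.elim v x) (Sum.elim w y)) k =
        t.val P (Sum.elim (fun i => v i k) (fun i => x i k))
          (Sum.elim (fun i => w i k) (fun i => y i k)) := by
      intro t k
      rw [term_ultra]
      congr 1
      · exact elim_at v x k
      · exact elim_at w y k
    simp only [CFormula.val, ← h2]
    exact h1
  | dK i j =>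
    intro x y
    have h1 := tendsto_ulim (fun k => dI P.dK_le
      ((Sum.elim v x i : Seq P.K) k) ((Sum.elim v x j : Seq P.K) k))
    simp only [CFormula.val]
    have h2 : ∀ i k, (Sum.elim v x i : Seq P.K) k =
        Sum.elim (fun i => v i k) (fun i => x i k) i := by
      intro i k
      exact congrFun (elim_at v x k) i
    refine Tendsto.congr (fun k => ?_) h1
    apply Subtype.ext
    change dist _ _ = dist _ _
    rw [h2, h2]
  | conn k u φs ih =>
    intro x y
    simp only [CFormula.val]
    refine (u.continuous.tendsto _).comp ?_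
    rw [tendsto_pi_nhds]
    intro i
    exact ih i x y
  | supK φ ih =>
    intro x y
    simp only [CFormula.val]
    refine tendsto_iSup (X := P.K) _ _ fun a => ?_
    have := ih (Fin.snoc (α := fun _ => (ultra P).K) x a) y
    have h2 : ∀ k, (fun i => (Fin.snoc (α := fun _ => (ultra P).K) x a i : Seq P.K) k) =
      Fin.snoc (α := fun _ => P.K) (fun i => x i k) (a k) := fun k => snoc_at x a k
    simp only [h2] at this
    exact this
  | infK φ ih =>
    intro x y
    simp only [CFormula.val]
    refine tendsto_iInf (X := P.K) _ _ fun a => ?_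
    have := ih (Fin.snoc (α := fun _ => (ultra P).K) x a) y
    have h2 : ∀ k, (fun i => (Fin.snoc (α := fun _ => (ultra P).K) x a i : Seq P.K) k) =
      Fin.snoc (α := fun _ => P.K) (fun i => x i k) (a k) := fun k => snoc_at x a k
    simp only [h2] at this
    exact this
  | supB φ ih =>
    intro x y
    simp only [CFormula.val]
    refine tendsto_iSup (X := P.B) _ _ fun a => ?_
    have := ih x (Fin.snoc (α := fun _ => (ultra P).B) y a)
    have h2 : ∀ k, (fun i => (Fin.snoc (α := fun _ => (ultra P).B) y a i : Seq P.B) k) =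
      Fin.snoc (α := fun _ => P.B) (fun i => y i k) (a k) := fun k => snoc_at y a k
    simp only [h2] at this
    exact this
  | infB φ ih =>
    intro x y
    simp only [CFormula.val]
    refine tendsto_iInf (X := P.B) _ _ fun a => ?_
    have := ih x (Fin.snoc (α := fun _ => (ultra P).B) y a)
    have h2 : ∀ k, (fun i => (Fin.snoc (α := fun _ => (ultra P).B) y a i : Seq P.B) k) =
      Fin.snoc (α := fun _ => P.B) (fun i => y i k) (a k) := fun k => snoc_at y a k
    simp only [h2] at this
    exact this

/-- The diagonal embedding is elementary. -/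
lemma val_ultra_const (P : PreStr L) (hK : Nonempty P.K) {VK VB : Type} (v : VK → P.K)
    (w : VB → P.B) {n m : ℕ} (φ : CFormula L VK VB n m) (x : Fin n → P.K) (y : Fin m → P.B) :
    φ.val (ultra P) (fun i => (fun _ => v i : Seq P.K)) (fun i => (fun _ => w i : Seq P.B))
      (fun i => (fun _ => x i : Seq P.K)) (fun i => (fun _ => y i : Seq P.B)) =
      φ.val P v w x y :=
  tendsto_nhds_unique (los P hK _ _ φ _ _) tendsto_const_nhds

end Pool.Agent.H568R2.Rand
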