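import Pool.Agent.H568R2.Rand.Ultra

open FirstOrder Cardinal MeasureTheory Filter Topology
open scoped unitInterval FirstOrder

noncomputable section

namespace Pool.Agent.H568R2.Rand

open Classical in
lemma complete_seq (X : Type) [PseudoMetricSpace X] (h : ∀ x y : X, dist x y ≤ 1) :
    letI := seqMetric X h
    CompleteSpace (Seq X) := by
  letI := seqMetric X h
  refine Metric.complete_of_convergent_controlled_sequences (fun n => (1 / 2 : ℝ) ^ n)
    (fun n => by positivity) ?_
  intro u hu
  set A : ℕ → ℕ → Prop := fun k i => ∀ l ≤ k, ∀ m ≤ k, l ≤ m →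
    dist (u l i) (u m i) < (1 / 2 : ℝ) ^ l with hA
  have hAU : ∀ k, ∀ᶠ i in (U : Filter ℕ), k ≤ i ∧ A k i := by
    intro k
    refine Filter.Eventually.and ?_ ?_
    · have h1 : (U : Filter ℕ) ≤ atTop := by
        rw [← Nat.cofinite_eq_atTop]; exact hyperfilter_le_cofinite
      exact h1 (eventually_ge_atTop k)
    · have h2 : ∀ l ∈ Finset.range (k + 1), ∀ᶠ i in (U : Filter ℕ),
          ∀ m ∈ Finset.range (k + 1), l ≤ m → dist (u l i) (u m i) < (1 / 2 : ℝ) ^ l := by
        intro l _
        rw [Filter.eventually_all_finset]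
        intro m _
        by_cases hlm : l ≤ m
        · have h3 := hu l l m le_rfl hlm
          have h4 := tendsto_seqDist X h (u l) (u m)
          filter_upwards [h4.eventually (gt_mem_nhds h3)] with i hi _
          exact hi
        · exact Filter.Eventually.of_forall fun i hi => absurd hi hlm
      rw [← Filter.eventually_all_finset] at h2
      filter_upwards [h2] with i hi l hl m hm hlm
      exact hi l (Finset.mem_range.mpr (by omega)) m (Finset.mem_range.mpr (by omega)) hlm
  set κ : ℕ → ℕ := fun i => Nat.findGreatest (fun k => A k i) i with hκ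
  let y : Seq X := fun i => u (κ i) i
  refine ⟨y, ?_⟩
  rw [tendsto_iff_dist_tendsto_zero]
  have key : ∀ k, dist (u k) y ≤ (1 / 2 : ℝ) ^ k := by
    intro k
    refine le_of_tendsto (tendsto_seqDist X h (u k) y) ?_
    filter_upwards [hAU k] with i hi
    have h1 : k ≤ κ i := Nat.le_findGreatest hi.1 hi.2
    have h2 : A (κ i) i := by
      have := @Nat.findGreatest_spec k (fun k => A k i) _ i hi.1 hi.2
      exact this
    exact (h2 k h1 (κ i) le_rfl h1).le
  refine squeeze_zero (fun _ => dist_nonneg) key ?_
  exact tendsto_pow_atTop_nhds_zero_of_lt_one (r := (1 / 2 : ℝ)) (by norm_num) (by norm_num)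

variable {L : FirstOrder.Language.{0, 0}}

lemma isStr_ultra_quot (P : PreStr L) (hK : Nonempty P.K) : (ultra P).quot.IsStr := by
  refine isStr_quot _ ?_ ?_ ?_
  · exact ⟨(fun _ => Classical.arbitrary P.K : Seq P.K)⟩
  · exact complete_seq P.K P.dK_le
  · exact complete_seq P.B P.dB_le

/-- The ultrapower of `N`, as an extension over any set of parameters. -/
def ultraExt (N : PreStr L) (hK : Nonempty N.K) (AK : Set N.K) (AB : Set N.B) : Ext N AK AB where
  N' := (ultra N).quot
  isStr := isStr_ultra_quot N hK
  iK a := qK (ultra N) (fun _ => (a : N.K) : Seq N.K)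
  iB b := qB (ultra N) (fun _ => (b : N.B) : Seq N.B)
  elem φ := by
    have h1 := val_quot (ultra N) (fun a : AK => (fun _ => (a : N.K) : Seq N.K))
      (fun b : AB => (fun _ => (b : N.B) : Seq N.B)) φ ![] ![]
    have h2 := val_ultra_const N hK (Subtype.val : AK → N.K) (Subtype.val : AB → N.B) φ ![] ![]
    have e1 : (fun i => (fun _ => (![] : Fin 0 → N.K) i : Seq N.K)) =
      (![] : Fin 0 → (ultra N).K) := Subsingleton.elim _ _
    have e2 : (fun i => (fun _ => (![] : Fin 0 → N.B) i : Seq N.B)) =
      (![] : Fin 0 → (ultra N).B) := Subsingleton.elim _ _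
    have e3 : (fun i => qK (ultra N) ((![] : Fin 0 → (ultra N).K) i)) =
      (![] : Fin 0 → (ultra N).quot.K) := Subsingleton.elim _ _
    have e4 : (fun i => qB (ultra N) ((![] : Fin 0 → (ultra N).B) i)) =
      (![] : Fin 0 → (ultra N).quot.B) := Subsingleton.elim _ _
    rw [e3, e4] at h1
    rw [e1, e2] at h2
    exact h1.trans h2

end Pool.Agent.H568R2.Rand
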